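import Pool.Agent.H90.InjHB

/-!
Near-best approximation by finitely many vectors, and the amalgamation inequality (constant 3).
-/

namespace Pool.Agent.H90

open Finset Filter Topology

variable {X : Type*} [NormedAddCommGroup X] [NormedSpace ℝ X] {ι : Type*}

/-- Uniform near-best approximation of the vectors of a finite dimensional space from the span of
`u '' T`, with finitely many vectors of `T` and controlled coefficients. -/
theorem near_best (F : Finset ι) (u : ι → X) (T : Set ι) {δ : ℝ} (hδ : 0 < δ) :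
    ∃ R : Finset ι, ↑R ⊆ T ∧ ∃ C : ℝ, 0 ≤ C ∧ ∀ d : ι → ℝ, ∃ e : ι → ℝ,
      ∑ i ∈ R, |e i| ≤ C * ∑ i ∈ F, |d i| ∧
      ∀ w ∈ Submodule.span ℝ (u '' T),
        ‖∑ i ∈ F, d i • u i - ∑ i ∈ R, e i • u i‖ ≤ ‖∑ i ∈ F, d i • u i - w‖ +
          δ * ∑ i ∈ F, |d i| := by
  classical
  let V : (F → ℝ) → X := fun d => ∑ i : F, d i • u i
  have hVc : Continuous V := by fun_prop
  let Q : Set (F → ℝ) := {c | ∑ i : F, |c i| = 1}
  have hQ : IsCompact Q := by
    have hsub : Q ⊆ Metric.closedBall 0 1 := by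
      intro c hc
      rw [mem_closedBall_zero_iff, pi_norm_le_iff_of_nonneg zero_le_one]
      intro i
      rw [Real.norm_eq_abs, ← hc]
      exact Finset.single_le_sum (f := fun i => |c i|) (fun j _ => abs_nonneg _)
        (Finset.mem_univ i)
    refine (isCompact_closedBall (0 : F → ℝ) 1).of_isClosed_subset ?_ hsub
    exact isClosed_eq (by fun_prop) continuous_const
  -- near best approximations of a single vector
  have hbest : ∀ v : X, ∃ l : ι →₀ ℝ, ↑l.support ⊆ T ∧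
      ∀ w ∈ Submodule.span ℝ (u '' T), ‖v - l.sum fun i a => a • u i‖ ≤ ‖v - w‖ + δ / 2 := by
    intro v
    let Z : Set ℝ := (fun w => ‖v - w‖) '' (Submodule.span ℝ (u '' T) : Set X)
    have hZne : Z.Nonempty := ⟨_, 0, Submodule.zero_mem _, rfl⟩
    have hZb : BddBelow Z := ⟨0, by rintro _ ⟨w, _, rfl⟩; exact norm_nonneg _⟩
    obtain ⟨_, ⟨w0, hw0, rfl⟩, hlt⟩ := exists_lt_of_csInf_lt hZne
      (show sInf Z < sInf Z + δ / 2 by linarith)
    obtain ⟨l, hl, rfl⟩ := (Finsupp.mem_span_image_iff_linearCombination ℝ).1 hw0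
    refine ⟨l, hl, ?_⟩
    intro w hw
    have h1 : sInf Z ≤ ‖v - w‖ := csInf_le hZb ⟨w, hw, rfl⟩
    have h2 : ‖v - l.sum fun i a => a • u i‖ < sInf Z + δ / 2 := hlt
    linarith
  choose l hlT hl using hbest
  let U : (F → ℝ) → Set (F → ℝ) := fun d => {d' | ‖V d' - V d‖ < δ / 4}
  have hU : ∀ d, U d ∈ 𝓝 d := by
    intro d
    have hopen : IsOpen (U d) := isOpen_lt (by fun_prop) (by fun_prop)
    refine hopen.mem_nhds ?_
    show ‖V d - V d‖ < δ / 4
    rw [sub_self, norm_zero]; linarith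
  obtain ⟨t, _, ht⟩ := hQ.elim_nhds_subcover U fun c _ => hU c
  let R : Finset ι := t.biUnion fun d => (l (V d)).support
  have hRsum : ∀ d ∈ t, ∀ g : ι → ℝ → X, (∀ i, g i 0 = 0) →
      ∑ i ∈ R, g i (l (V d) i) = (l (V d)).sum g := by
    intro d hd g hg
    rw [Finsupp.sum]
    symm
    apply Finset.sum_subset
    · exact Finset.subset_biUnion_of_mem (fun d => (l (V d)).support) hd
    · intro i _ hi
      rw [Finsupp.notMem_support_iff.1 hi, hg]
  refine ⟨R, ?_, ∑ d ∈ t, ∑ i ∈ R, |l (V d) i|, ?_, ?_⟩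
  · intro i hi
    obtain ⟨d, hd, hi⟩ := Finset.mem_biUnion.1 (Finset.mem_coe.1 hi)
    exact hlT _ hi
  · exact Finset.sum_nonneg fun d _ => Finset.sum_nonneg fun i _ => abs_nonneg _
  intro d
  have hs0 : 0 ≤ ∑ i ∈ F, |d i| := Finset.sum_nonneg fun i _ => abs_nonneg (d i)
  obtain ⟨s, hs⟩ : ∃ s, s = ∑ i ∈ F, |d i| := ⟨_, rfl⟩
  rw [← hs] at hs0 ⊢
  rcases hs0.eq_or_lt with h0 | h0
  · refine ⟨0, by simp [← h0], ?_⟩
    intro w _
    have hz : ∀ i ∈ F, d i = 0 := by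
      intro i hi
      have := (Finset.sum_eq_zero_iff_of_nonneg fun i _ => abs_nonneg (d i)).1
        (hs.symm.trans h0.symm) i hi
      exact abs_eq_zero.1 this
    have e2 : ∑ i ∈ F, d i • u i = 0 := Finset.sum_eq_zero fun i hi => by rw [hz i hi, zero_smul]
    rw [e2, ← h0]
    simp
  · have hmem : (fun i : F => d i / s) ∈ Q := by
      show ∑ i : F, |d i / s| = 1
      have : ∑ i : F, |d i / s| = (∑ i : F, |d i|) / s := by
        rw [Finset.sum_div]
        exact Finset.sum_congr rfl fun i _ => by rw [abs_div, abs_of_pos h0]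
      rw [this, Finset.sum_coe_sort F fun i => |d i|, ← hs, div_self h0.ne']
    obtain ⟨d0, hd0, hdU⟩ := Set.mem_iUnion₂.1 (ht hmem)
    have hdU : ‖V (fun i : F => d i / s) - V d0‖ < δ / 4 := hdU
    have hV : V (fun i : F => d i / s) = s⁻¹ • ∑ i ∈ F, d i • u i := by
      show ∑ i : F, (d i / s) • u i = _
      rw [Finset.sum_coe_sort F fun i => (d i / s) • u i, Finset.smul_sum]
      exact Finset.sum_congr rfl fun i _ => by rw [smul_smul]; congr 1; ring
    rw [hV] at hdU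
    refine ⟨fun i => s * l (V d0) i, ?_, ?_⟩
    · simp only [abs_mul, abs_of_pos h0]
      rw [← Finset.mul_sum, mul_comm]
      refine mul_le_mul_of_nonneg_right ?_ h0.le
      exact Finset.single_le_sum (f := fun d => ∑ i ∈ R, |l (V d) i|)
        (fun d _ => Finset.sum_nonneg fun i _ => abs_nonneg _) hd0
    · intro w hw
      have h1 := hl (V d0) (s⁻¹ • w) (Submodule.smul_mem _ _ hw)
      have h2 : ∑ i ∈ R, (s * l (V d0) i) • u i = s • (l (V d0)).sum fun i a => a • u i := by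
        rw [← hRsum d0 hd0 (fun i a => a • u i) (fun i => zero_smul _ _), Finset.smul_sum]
        exact Finset.sum_congr rfl fun i _ => by rw [smul_smul]
      rw [h2]
      set v := ∑ i ∈ F, d i • u i with hv
      set r := (l (V d0)).sum fun i a => a • u i with hr
      have h3 : ‖s⁻¹ • v - r‖ ≤ ‖s⁻¹ • v - s⁻¹ • w‖ + δ := by
        have a1 : ‖s⁻¹ • v - r‖ ≤ ‖s⁻¹ • v - V d0‖ + ‖V d0 - r‖ := by
          have := norm_add_le (s⁻¹ • v - V d0) (V d0 - r)
          simpa using this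
        have a2 : ‖V d0 - s⁻¹ • w‖ ≤ ‖s⁻¹ • v - V d0‖ + ‖s⁻¹ • v - s⁻¹ • w‖ := by
          have := norm_add_le (V d0 - s⁻¹ • v) (s⁻¹ • v - s⁻¹ • w)
          rw [norm_sub_rev (V d0) (s⁻¹ • v)] at this
          simpa using this
        linarith
      have h4 : v - s • r = s • (s⁻¹ • v - r) := by
        rw [smul_sub, smul_smul, mul_inv_cancel₀ h0.ne', one_smul]
      have h5 : s • (s⁻¹ • v - s⁻¹ • w) = v - w := by
        rw [smul_sub, smul_smul, smul_smul, mul_inv_cancel₀ h0.ne', one_smul, one_smul]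
      rw [h4, norm_smul, Real.norm_eq_abs, abs_of_pos h0]
      have h6 : ‖v - w‖ = s * ‖s⁻¹ • v - s⁻¹ • w‖ := by
        rw [← h5, norm_smul, Real.norm_eq_abs, abs_of_pos h0]
      rw [h6]
      nlinarith [mul_le_mul_of_nonneg_left h3 h0.le]

/-- Amalgamation: two norm-`K` functionals on `span u(A)`, `span u(B)` that agree up to small
errors on near-best approximants glue to a norm-`3K` functional. -/
theorem amalg [DecidableEq ι] (A B R : Finset ι) (hRA : R ⊆ A) (hRB : R ⊆ B) (T : Set ι)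
    (hAT : ↑A ⊆ T)
    (u : ι → X) (b : ι → ℝ) {K δ₁ δ₂ C ε : ℝ} (hK : 0 ≤ K) (hδ₁ : 0 ≤ δ₁)
    (hε : 2 * K * δ₂ + δ₁ * (1 + 2 * C) ≤ ε) (hε' : δ₁ ≤ ε)
    (hA : ∀ c : ι → ℝ, |∑ i ∈ A, c i * b i| ≤ K * ‖∑ i ∈ A, c i • u i‖ + δ₁ * ∑ i ∈ A, |c i|)
    (hB : ∀ c : ι → ℝ, |∑ i ∈ B, c i * b i| ≤ K * ‖∑ i ∈ B, c i • u i‖ + δ₁ * ∑ i ∈ B, |c i|)
    (hR : ∀ d : ι → ℝ, ∃ e : ι → ℝ,
      ∑ i ∈ R, |e i| ≤ C * ∑ i ∈ B \ A, |d i| ∧
      ∀ w ∈ Submodule.span ℝ (u '' T),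
        ‖∑ i ∈ B \ A, d i • u i - ∑ i ∈ R, e i • u i‖ ≤ ‖∑ i ∈ B \ A, d i • u i - w‖ +
          δ₂ * ∑ i ∈ B \ A, |d i|) (c : ι → ℝ) :
    |∑ i ∈ A ∪ B, c i * b i| ≤ 3 * K * ‖∑ i ∈ A ∪ B, c i • u i‖ + ε * ∑ i ∈ A ∪ B, |c i| := by
  obtain ⟨e, he1, he2⟩ := hR (fun i => - c i)
  simp only [abs_neg] at he1 he2
  have hdis : Disjoint A (B \ A) := Finset.disjoint_sdiff
  have hun : A ∪ B = A ∪ (B \ A) := by rw [Finset.union_sdiff_self_eq_union]
  have hsumR : ∀ (S : Finset ι), R ⊆ S → ∀ g : ι → ℝ,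
      ∑ i ∈ S, (if i ∈ R then e i else 0) * g i = ∑ i ∈ R, e i * g i := by
    intro S hS g
    rw [← Finset.sum_subset hS]
    · exact Finset.sum_congr rfl fun i hi => by rw [if_pos hi]
    · intro i _ hi; rw [if_neg hi, zero_mul]
  have hsumRv : ∀ (S : Finset ι), R ⊆ S →
      ∑ i ∈ S, (if i ∈ R then e i else 0) • u i = ∑ i ∈ R, e i • u i := by
    intro S hS
    rw [← Finset.sum_subset hS]
    · exact Finset.sum_congr rfl fun i hi => by rw [if_pos hi]
    · intro i _ hi; rw [if_neg hi, zero_smul]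
  have hsumRa : ∀ (S : Finset ι), R ⊆ S →
      ∑ i ∈ S, |(if i ∈ R then e i else 0)| = ∑ i ∈ R, |e i| := by
    intro S hS
    rw [← Finset.sum_subset hS]
    · exact Finset.sum_congr rfl fun i hi => by rw [if_pos hi]
    · intro i _ hi; rw [if_neg hi, abs_zero]
  have hsumD : ∀ g : ι → ℝ,
      ∑ i ∈ B, (if i ∈ A then 0 else c i) * g i = ∑ i ∈ B \ A, c i * g i := by
    intro g
    rw [← Finset.sum_subset (Finset.sdiff_subset : B \ A ⊆ B)]
    · exact Finset.sum_congr rfl fun i hi => by rw [if_neg (Finset.mem_sdiff.1 hi).2]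
    · intro i hi hi'
      have : i ∈ A := by
        by_contra h
        exact hi' (Finset.mem_sdiff.2 ⟨hi, h⟩)
      rw [if_pos this, zero_mul]
  have hsumDv : ∑ i ∈ B, (if i ∈ A then 0 else c i) • u i = ∑ i ∈ B \ A, c i • u i := by
    rw [← Finset.sum_subset (Finset.sdiff_subset : B \ A ⊆ B)]
    · exact Finset.sum_congr rfl fun i hi => by rw [if_neg (Finset.mem_sdiff.1 hi).2]
    · intro i hi hi'
      have : i ∈ A := by
        by_contra h
        exact hi' (Finset.mem_sdiff.2 ⟨hi, h⟩)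
      rw [if_pos this, zero_smul]
  have hsumDa : ∑ i ∈ B, |(if i ∈ A then 0 else c i)| = ∑ i ∈ B \ A, |c i| := by
    rw [← Finset.sum_subset (Finset.sdiff_subset : B \ A ⊆ B)]
    · exact Finset.sum_congr rfl fun i hi => by rw [if_neg (Finset.mem_sdiff.1 hi).2]
    · intro i hi hi'
      have : i ∈ A := by
        by_contra h
        exact hi' (Finset.mem_sdiff.2 ⟨hi, h⟩)
      rw [if_pos this, abs_zero]
  -- the two pieces
  have h1 := hA fun i => c i - (if i ∈ R then e i else 0)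
  have h2 := hB fun i => (if i ∈ A then 0 else c i) + (if i ∈ R then e i else 0)
  simp only [sub_mul, add_mul, sub_smul, add_smul, Finset.sum_sub_distrib,
    Finset.sum_add_distrib] at h1 h2
  rw [hsumR A hRA b, hsumRv A hRA] at h1
  rw [hsumR B hRB b, hsumRv B hRB, hsumD b, hsumDv] at h2
  have h1a : ∑ i ∈ A, |c i - (if i ∈ R then e i else 0)| ≤ ∑ i ∈ A, |c i| + ∑ i ∈ R, |e i| := by
    rw [← hsumRa A hRA, ← Finset.sum_add_distrib]
    exact Finset.sum_le_sum fun i _ => abs_sub _ _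
  have h2a : ∑ i ∈ B, |(if i ∈ A then 0 else c i) + (if i ∈ R then e i else 0)| ≤
      ∑ i ∈ B \ A, |c i| + ∑ i ∈ R, |e i| := by
    rw [← hsumRa B hRB, ← hsumDa, ← Finset.sum_add_distrib]
    exact Finset.sum_le_sum fun i _ => abs_add_le _ _
  rw [hun, Finset.sum_union hdis, Finset.sum_union hdis, Finset.sum_union hdis]
  set p := ∑ i ∈ A, c i • u i with hp
  set q := ∑ i ∈ B \ A, c i • u i with hq
  set r := ∑ i ∈ R, e i • u i with hr
  have hpT : p ∈ Submodule.span ℝ (u '' T) := Submodule.sum_mem _ fun i hi =>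
    Submodule.smul_mem _ _ (Submodule.subset_span ⟨i, hAT hi, rfl⟩)
  have h3 := he2 p hpT
  have e3 : ∑ i ∈ B \ A, -c i • u i = -q := by
    rw [hq, ← Finset.sum_neg_distrib]
    exact Finset.sum_congr rfl fun i _ => neg_smul _ _
  rw [e3] at h3
  have e4 : ‖-q - p‖ = ‖p + q‖ := by rw [← norm_neg]; congr 1; abel
  have e5 : ‖-q - r‖ = ‖q + r‖ := by rw [← norm_neg]; congr 1; abel
  rw [e4, e5] at h3
  have h4 : ‖p - r‖ ≤ ‖p + q‖ + ‖q + r‖ := by
    have := norm_sub_le (p + q) (q + r)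
    have e7 : p + q - (q + r) = p - r := by abel
    rwa [e7] at this
  have nD : 0 ≤ ∑ i ∈ B \ A, |c i| := Finset.sum_nonneg fun i _ => abs_nonneg _
  have nA : 0 ≤ ∑ i ∈ A, |c i| := Finset.sum_nonneg fun i _ => abs_nonneg _
  have h5 : |∑ i ∈ A, c i * b i + ∑ i ∈ B \ A, c i * b i| ≤
      |∑ i ∈ A, c i * b i - ∑ i ∈ R, e i * b i| +
      |∑ i ∈ B \ A, c i * b i + ∑ i ∈ R, e i * b i| := by
    have := abs_add_le (∑ i ∈ A, c i * b i - ∑ i ∈ R, e i * b i)
      (∑ i ∈ B \ A, c i * b i + ∑ i ∈ R, e i * b i)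
    have e6 : ∑ i ∈ A, c i * b i - ∑ i ∈ R, e i * b i +
      (∑ i ∈ B \ A, c i * b i + ∑ i ∈ R, e i * b i) =
      ∑ i ∈ A, c i * b i + ∑ i ∈ B \ A, c i * b i := by ring
    rwa [e6] at this
  set a := ∑ i ∈ A, |c i|
  set d := ∑ i ∈ B \ A, |c i|
  set g := ∑ i ∈ R, |e i|
  have h6 : K * ‖p - r‖ + K * ‖q + r‖ ≤ 3 * K * ‖p + q‖ + 2 * K * δ₂ * d := by
    nlinarith [mul_le_mul_of_nonneg_left h4 hK, mul_le_mul_of_nonneg_left h3 hK]
  have h7 : δ₁ * (a + g) + δ₁ * (d + g) ≤ δ₁ * a + δ₁ * (1 + 2 * C) * d := by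
    nlinarith [mul_le_mul_of_nonneg_left he1 hδ₁]
  have h8 := mul_le_mul_of_nonneg_left h1a hδ₁
  have h9 := mul_le_mul_of_nonneg_left h2a hδ₁
  have h10 : (2 * K * δ₂ + δ₁ * (1 + 2 * C)) * d ≤ ε * d := mul_le_mul_of_nonneg_right hε nD
  have h11 : δ₁ * a ≤ ε * a := mul_le_mul_of_nonneg_right hε' nA
  nlinarith

end Pool.Agent.H90
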