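import Mathlib

/-!
Elementary facts from functional analysis used for the extension of operators into `ℓ∞/c₀`.
-/

namespace Pool.Agent.H90

open Finset Filter Topology

section HB

variable {X : Type*} [NormedAddCommGroup X] [NormedSpace ℝ X] {ι : Type*}

/-- approximate Helly theorem -/
theorem hb (F : Finset ι) (u : ι → X) (b : ι → ℝ) (C ε : ℝ) (hC : 0 ≤ C) (hε : 0 ≤ ε)
    (h : ∀ c : ι → ℝ, |∑ i ∈ F, c i * b i| ≤ C * ‖∑ i ∈ F, c i • u i‖ + ε * ∑ i ∈ F, |c i|) :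
    ∃ ξ : X →L[ℝ] ℝ, ‖ξ‖ ≤ C ∧ ∀ i ∈ F, |ξ (u i) - b i| ≤ ε := by
  classical
  let S : (F → ℝ) →ₗ[ℝ] X := ∑ i : F, (LinearMap.toSpanSingleton ℝ X (u i)).comp
    (LinearMap.proj i)
  have hS : ∀ c : F → ℝ, S c = ∑ i : F, c i • u i := by
    intro c
    simp [S, LinearMap.sum_apply, LinearMap.toSpanSingleton_apply]
  let L : (F → ℝ) →ₗ[ℝ] X × (F → ℝ) := S.prod LinearMap.id
  let φ : X × (F → ℝ) →ₗ[ℝ] ℝ := (∑ i : F, (b i) • (LinearMap.proj i : (F → ℝ) →ₗ[ℝ] ℝ)).comp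
    (LinearMap.snd ℝ X (F → ℝ))
  have hφ : ∀ x c, φ (x, c) = ∑ i : F, c i * b i := by
    intro x c
    simp [φ, mul_comm]
  let f : X × (F → ℝ) →ₗ.[ℝ] ℝ := ⟨LinearMap.range L, φ.domRestrict (LinearMap.range L)⟩
  let N : X × (F → ℝ) → ℝ := fun z => C * ‖z.1‖ + ε * ∑ i : F, |z.2 i|
  have hfN : ∀ x : f.domain, f x ≤ N x := by
    rintro ⟨⟨x, c⟩, ⟨c', hc'⟩⟩
    have h1 : (S c', c') = (x, c) := hc'
    obtain ⟨rfl, rfl⟩ := Prod.mk.inj h1
    show φ (S c', c') ≤ C * ‖S c'‖ + ε * ∑ i : F, |c' i|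
    rw [hφ, hS]
    have h2 := h (fun i => if hi : i ∈ F then c' ⟨i, hi⟩ else 0)
    have e1 : ∑ i ∈ F, (if hi : i ∈ F then c' ⟨i, hi⟩ else 0) * b i = ∑ i : F, c' i * b i := by
      rw [← Finset.sum_coe_sort F]
      exact Finset.sum_congr rfl fun i _ => by simp
    have e2 : ∑ i ∈ F, (if hi : i ∈ F then c' ⟨i, hi⟩ else 0) • u i = ∑ i : F, c' i • u i := by
      rw [← Finset.sum_coe_sort F]
      exact Finset.sum_congr rfl fun i _ => by simp
    have e3 : ∑ i ∈ F, |(if hi : i ∈ F then c' ⟨i, hi⟩ else 0)| = ∑ i : F, |c' i| := by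
      rw [← Finset.sum_coe_sort F]
      exact Finset.sum_congr rfl fun i _ => by simp
    rw [e1, e2, e3] at h2
    exact (le_abs_self _).trans h2
  obtain ⟨g, hg1, hg2⟩ := exists_extension_of_le_sublinear f N
    (by
      intro c hc z
      simp only [N, Prod.smul_fst, Prod.smul_snd, norm_smul, Pi.smul_apply, smul_eq_mul, abs_mul,
        Real.norm_eq_abs, abs_of_pos hc, ← Finset.mul_sum]
      ring)
    (by
      intro x y
      simp only [N, Prod.fst_add, Prod.snd_add, Pi.add_apply]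
      have h1 := norm_add_le x.1 y.1
      have h2 : ∑ i : F, |x.2 i + y.2 i| ≤ ∑ i : F, |x.2 i| + ∑ i : F, |y.2 i| := by
        rw [← Finset.sum_add_distrib]
        exact Finset.sum_le_sum fun i _ => abs_add_le _ _
      nlinarith [mul_le_mul_of_nonneg_left h1 hC, mul_le_mul_of_nonneg_left h2 hε])
    hfN
  let ξ0 : X →ₗ[ℝ] ℝ := g.comp (LinearMap.inl ℝ X (F → ℝ))
  have hξ0 : ∀ x, ξ0 x = g (x, 0) := fun x => rfl
  have hb1 : ∀ x, ‖ξ0 x‖ ≤ C * ‖x‖ := by
    intro x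
    rw [Real.norm_eq_abs, abs_le]
    have h1 := hg2 (x, 0)
    have h2 := hg2 (-x, 0)
    have e : g (-x, 0) = - ξ0 x := by
      rw [← hξ0 (-x), map_neg]
    rw [e] at h2
    simp only [N, norm_neg, Pi.zero_apply, abs_zero, Finset.sum_const_zero, mul_zero,
      add_zero] at h1 h2
    rw [← hξ0 x] at h1
    constructor <;> linarith
  refine ⟨LinearMap.mkContinuous ξ0 C hb1, LinearMap.mkContinuous_norm_le _ hC _, ?_⟩
  intro i hi
  rw [LinearMap.mkContinuous_apply]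
  have hL : L (Pi.single ⟨i, hi⟩ 1) = (u i, Pi.single ⟨i, hi⟩ 1) := by
    show (S _, _) = _
    rw [hS]
    congr 1
    rw [Finset.sum_eq_single (⟨i, hi⟩ : F)]
    · simp
    · intro j _ hj
      simp [Pi.single_eq_of_ne hj]
    · simp
  have h3 : g (u i, Pi.single ⟨i, hi⟩ 1) = b i := by
    have := hg1 ⟨(u i, Pi.single ⟨i, hi⟩ 1), ⟨Pi.single ⟨i, hi⟩ 1, hL⟩⟩
    rw [this]
    show φ (u i, Pi.single ⟨i, hi⟩ 1) = b i
    rw [hφ, Finset.sum_eq_single (⟨i, hi⟩ : F)]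
    · simp
    · intro j _ hj
      simp [Pi.single_eq_of_ne hj]
    · simp
  have h4 : g (u i, Pi.single ⟨i, hi⟩ 1) = ξ0 (u i) + g (0, Pi.single ⟨i, hi⟩ 1) := by
    rw [hξ0, ← map_add]
    simp
  have hsum : ∑ j : F, |(Pi.single (⟨i, hi⟩ : F) (1 : ℝ) : F → ℝ) j| = 1 := by
    rw [Finset.sum_eq_single (⟨i, hi⟩ : F)]
    · simp
    · intro j _ hj
      simp [Pi.single_eq_of_ne hj]
    · simp
  have h5 := hg2 (0, Pi.single ⟨i, hi⟩ 1)
  have h6 := hg2 (0, -Pi.single ⟨i, hi⟩ 1)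
  have h7 : g ((0 : X), -Pi.single (⟨i, hi⟩ : F) (1 : ℝ)) = - g (0, Pi.single ⟨i, hi⟩ 1) := by
    rw [← map_neg]; simp
  rw [h7] at h6
  simp only [N, norm_zero, mul_zero, zero_add, Pi.neg_apply, abs_neg, hsum, mul_one] at h5 h6
  rw [abs_le]
  constructor <;> linarith

end HB

section Eventually

variable {X : Type*} [NormedAddCommGroup X] [NormedSpace ℝ X] {ι : Type*}

/-- If the sequences `τ i` are bounded and represent vectors `u i` modulo `c₀` with constant `K`,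
then the inequality holds uniformly for all coefficients, up to a small additive error. -/
theorem eventually_strong (F : Finset ι) (u : ι → X) (τ : ι → ℕ → ℝ) (K B : ℝ)
    (hB : ∀ i ∈ F, ∀ k, |τ i k| ≤ B)
    (h : ∀ c : ι → ℝ, ∀ δ > 0, ∀ᶠ k in atTop,
      |∑ i ∈ F, c i * τ i k| ≤ K * ‖∑ i ∈ F, c i • u i‖ + δ)
    {δ : ℝ} (hδ : 0 < δ) :
    ∀ᶠ k in atTop, ∀ c : ι → ℝ,
      |∑ i ∈ F, c i * τ i k| ≤ K * ‖∑ i ∈ F, c i • u i‖ + δ * ∑ i ∈ F, |c i| := by
  classical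
  -- the compact sphere
  let Q : Set (F → ℝ) := {c | ∑ i : F, |c i| = 1}
  have hQ : IsCompact Q := by
    have hsub : Q ⊆ Metric.closedBall 0 1 := by
      intro c hc
      rw [mem_closedBall_zero_iff, pi_norm_le_iff_of_nonneg zero_le_one]
      intro i
      rw [Real.norm_eq_abs, ← hc]
      exact Finset.single_le_sum (f := fun i => |c i|) (fun j _ => abs_nonneg _)
        (Finset.mem_univ i)
    refine (isCompact_closedBall (0 : F → ℝ) 1).of_isClosed_subset ?_ hsub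
    exact isClosed_eq (by fun_prop) continuous_const
  let ext : (F → ℝ) → ι → ℝ := fun c i => if hi : i ∈ F then c ⟨i, hi⟩ else 0
  have hext1 : ∀ (c : F → ℝ) (g : ι → ℝ), ∑ i ∈ F, ext c i * g i = ∑ i : F, c i * g i := by
    intro c g
    rw [← Finset.sum_coe_sort F]
    exact Finset.sum_congr rfl fun i _ => by simp [ext]
  have hext2 : ∀ (c : F → ℝ), ∑ i ∈ F, ext c i • u i = ∑ i : F, c i • u i := by
    intro c
    rw [← Finset.sum_coe_sort F]
    exact Finset.sum_congr rfl fun i _ => by simp [ext]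
  let U : (F → ℝ) → Set (F → ℝ) := fun c => {c' | K * ‖∑ i : F, c i • u i‖ + δ / 2 +
    B * ∑ i : F, |c' i - c i| < K * ‖∑ i : F, c' i • u i‖ + δ}
  have hU : ∀ c, U c ∈ 𝓝 c := by
    intro c
    have hopen : IsOpen (U c) := isOpen_lt (by fun_prop) (by fun_prop)
    refine hopen.mem_nhds ?_
    show K * ‖∑ i : F, c i • u i‖ + δ / 2 + B * ∑ i : F, |c i - c i| <
      K * ‖∑ i : F, c i • u i‖ + δ
    simp only [sub_self, abs_zero, Finset.sum_const_zero, mul_zero, add_zero]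
    linarith
  obtain ⟨t, _, ht⟩ := hQ.elim_nhds_subcover U fun c _ => hU c
  have key : ∀ᶠ k in atTop, ∀ c ∈ Q,
      |∑ i : F, c i * τ i k| ≤ K * ‖∑ i : F, c i • u i‖ + δ := by
    have h1 : ∀ᶠ k in atTop, ∀ c ∈ t,
        |∑ i : F, c i * τ i k| ≤ K * ‖∑ i : F, c i • u i‖ + δ / 2 := by
      rw [Filter.eventually_all_finset]
      intro c _
      have := h (ext c) (δ / 2) (half_pos hδ)
      filter_upwards [this] with k hk
      rw [hext1, hext2] at hk
      exact hk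
    filter_upwards [h1] with k hk c hc
    obtain ⟨c0, hc0, hcU⟩ := Set.mem_iUnion₂.1 (ht hc)
    have h2 := hk c0 hc0
    have h3 : |∑ i : F, (c i - c0 i) * τ i k| ≤ B * ∑ i : F, |c i - c0 i| := by
      refine (Finset.abs_sum_le_sum_abs _ _).trans ?_
      rw [Finset.mul_sum]
      refine Finset.sum_le_sum fun i _ => ?_
      rw [abs_mul, mul_comm]
      exact mul_le_mul_of_nonneg_right (hB i i.2 k) (abs_nonneg _)
    have h4 : ∑ i : F, c i * τ i k = ∑ i : F, c0 i * τ i k + ∑ i : F, (c i - c0 i) * τ i k := by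
      rw [← Finset.sum_add_distrib]
      exact Finset.sum_congr rfl fun i _ => by ring
    have h5 : K * ‖∑ i : F, c0 i • u i‖ + δ / 2 + B * ∑ i : F, |c i - c0 i| <
      K * ‖∑ i : F, c i • u i‖ + δ := hcU
    rw [h4]
    linarith [abs_add_le (∑ i : F, c0 i * τ i k) (∑ i : F, (c i - c0 i) * τ i k)]
  filter_upwards [key] with k hk c
  have hs0 : 0 ≤ ∑ i ∈ F, |c i| := Finset.sum_nonneg fun i _ => abs_nonneg (c i)
  obtain ⟨s, hs⟩ : ∃ s, s = ∑ i ∈ F, |c i| := ⟨_, rfl⟩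
  rw [← hs] at hs0 ⊢
  rcases hs0.eq_or_lt with h0 | h0
  · have hz : ∀ i ∈ F, c i = 0 := by
      intro i hi
      have := (Finset.sum_eq_zero_iff_of_nonneg fun i _ => abs_nonneg (c i)).1
        (hs.symm.trans h0.symm) i hi
      exact abs_eq_zero.1 this
    have e1 : ∑ i ∈ F, c i * τ i k = 0 := Finset.sum_eq_zero fun i hi => by rw [hz i hi, zero_mul]
    have e2 : ∑ i ∈ F, c i • u i = 0 := Finset.sum_eq_zero fun i hi => by rw [hz i hi, zero_smul]
    rw [e1, e2, ← h0]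
    simp
  · have hmem : (fun i : F => c i / s) ∈ Q := by
      show ∑ i : F, |c i / s| = 1
      have : ∑ i : F, |c i / s| = (∑ i : F, |c i|) / s := by
        rw [Finset.sum_div]
        exact Finset.sum_congr rfl fun i _ => by rw [abs_div, abs_of_pos h0]
      rw [this, Finset.sum_coe_sort F fun i => |c i|, ← hs, div_self h0.ne']
    have h1 := hk _ hmem
    have e1 : ∑ i : F, c i / s * τ i k = (∑ i ∈ F, c i * τ i k) / s := by
      rw [Finset.sum_coe_sort F fun i => c i / s * τ i k, Finset.sum_div]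
      exact Finset.sum_congr rfl fun i _ => by ring
    have e2 : ∑ i : F, (c i / s) • u i = s⁻¹ • (∑ i ∈ F, c i • u i) := by
      rw [Finset.sum_coe_sort F fun i => (c i / s) • u i, Finset.smul_sum]
      exact Finset.sum_congr rfl fun i _ => by rw [smul_smul]; congr 1; ring
    rw [e1, e2, abs_div, abs_of_pos h0, norm_smul, Real.norm_eq_abs, abs_of_pos (inv_pos.2 h0),
      div_le_iff₀ h0] at h1
    have e3 : (K * (s⁻¹ * ‖∑ i ∈ F, c i • u i‖) + δ) * s =
        K * ‖∑ i ∈ F, c i • u i‖ + δ * s := by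
      field_simp
    rw [e3] at h1
    exact h1

end Eventually

end Pool.Agent.H90
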