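import Pool.Agent.H90.InjMain

/-!
Elementary facts on Martin's axiom: `MA ℵ₀` holds, `MA 𝔠` fails; the cardinal `𝔪`.
-/

namespace Pool.Agent.H90

open Cardinal

theorem MA.mono {κ κ' : Cardinal.{0}} (h : MA κ) (hκ : κ' ≤ κ) : MA κ' := by
  intro P _ _ hP I D hI hD
  exact h P hP I D (hI.trans hκ) hD

/-- Rasiowa and Sikorski -/
theorem MA_aleph0 : MA ℵ₀ := by
  classical
  intro P _ hne hP I D hI hD
  have hc : Countable I := mk_le_aleph0_iff.1 hI
  rcases isEmpty_or_nonempty I with he | hI0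
  · obtain ⟨p⟩ := hne
    refine ⟨{q | p ≤ q}, fun a ha b hab => le_trans ha hab, fun a ha b hb =>
      ⟨p, le_refl p, ha, hb⟩, ⟨p, le_refl p⟩, fun i => (he.false i).elim⟩
  · obtain ⟨e, he⟩ := exists_surjective_nat I
    obtain ⟨p0⟩ := hne
    choose g hg1 hg2 using hD
    let s : ℕ → P := fun n => Nat.rec p0 (fun k q => g (e k) q) n
    have hs : ∀ n, s (n + 1) = g (e n) (s n) := fun n => rfl
    have hanti : Antitone s := antitone_nat_of_succ_le fun n => by rw [hs]; exact hg1 _ _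
    refine ⟨{q | ∃ n, s n ≤ q}, ?_, ?_, ⟨p0, 0, le_refl _⟩, ?_⟩
    · rintro a ⟨n, hn⟩ b hab
      exact ⟨n, hn.trans hab⟩
    · rintro a ⟨n, hn⟩ b ⟨m, hm⟩
      exact ⟨s (max n m), ⟨_, le_refl _⟩, (hanti (le_max_left _ _)).trans hn,
        (hanti (le_max_right _ _)).trans hm⟩
    · intro i
      obtain ⟨n, rfl⟩ := he i
      exact ⟨s (n + 1), ⟨n + 1, le_refl _⟩, by rw [hs]; exact hg2 _ _⟩

/-- finite binary sequences, ordered by reverse end-extension -/
structure BinSeq : Type where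
  /-- the sequence -/
  l : List Bool

instance : Preorder BinSeq where
  le q p := ∀ n, n < p.l.length → n < q.l.length ∧ q.l.getD n false = p.l.getD n false
  le_refl p := fun n hn => ⟨hn, rfl⟩
  le_trans r q p := by
    intro h1 h2 n hn
    obtain ⟨a, b⟩ := h2 n hn
    obtain ⟨c, d⟩ := h1 n a
    exact ⟨c, d.trans b⟩

theorem BinSeq.le_def {p q : BinSeq} : q ≤ p ↔
    ∀ n, n < p.l.length → n < q.l.length ∧ q.l.getD n false = p.l.getD n false := Iff.rfl

theorem BinSeq.countable : Countable BinSeq := by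
  have : Function.Injective BinSeq.l := by
    rintro ⟨a⟩ ⟨b⟩ h
    have h : a = b := h
    rw [h]
  exact this.countable

theorem BinSeq.append_le (p : BinSeq) (b : List Bool) : (⟨p.l ++ b⟩ : BinSeq) ≤ p := by
  intro n hn
  refine ⟨?_, ?_⟩
  · show n < (p.l ++ b).length
    rw [List.length_append]; omega
  · show (p.l ++ b).getD n false = _
    rw [List.getD_append _ _ _ _ hn]

theorem not_MA_continuum : ¬ MA 𝔠 := by
  classical
  intro h
  have hcn := BinSeq.countable
  have hcc : CCC BinSeq := fun A _ => A.to_countable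
  have hne : Nonempty BinSeq := ⟨⟨[]⟩⟩
  let D : ℕ ⊕ (ℕ → Bool) → Set BinSeq := Sum.elim (fun n => {p | n < p.l.length})
    (fun g => {p | ∃ n, n < p.l.length ∧ p.l.getD n false ≠ g n})
  have hI : #(ℕ ⊕ (ℕ → Bool)) ≤ 𝔠 := by
    rw [mk_sum, lift_id, lift_id, mk_nat]
    have : #(ℕ → Bool) = 𝔠 := by simp
    rw [this]
    exact (add_eq_right aleph0_le_continuum aleph0_le_continuum).le
  obtain ⟨G, h1, h2, -, h4⟩ := h BinSeq hcc _ D hI (by
    rintro (n | g) p
    · refine ⟨⟨p.l ++ List.replicate (n + 1) false⟩, p.append_le _, ?_⟩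
      show n < (p.l ++ List.replicate (n + 1) false).length
      rw [List.length_append, List.length_replicate]; omega
    · refine ⟨⟨p.l ++ [! g p.l.length]⟩, p.append_le _, p.l.length, ?_, ?_⟩
      · show p.l.length < (p.l ++ [! g p.l.length]).length
        rw [List.length_append, List.length_singleton]; omega
      · show (p.l ++ [! g p.l.length]).getD p.l.length false ≠ g p.l.length
        rw [List.getD_append_right _ _ _ _ le_rfl]
        simp)
  have h5 : ∀ n, ∃ p ∈ G, n < p.l.length := fun n => h4 (Sum.inl n)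
  choose q hq1 hq2 using h5
  let g : ℕ → Bool := fun n => (q n).l.getD n false
  obtain ⟨p, hp, n, hn, hne⟩ := h4 (Sum.inr g)
  obtain ⟨r, -, hr1, hr2⟩ := h2 p hp (q n) (hq1 n)
  apply hne
  rw [← (hr1 n hn).2, (hr2 n (hq2 n)).2]

/-- the cardinal `𝔪`: the least cardinal for which Martin's axiom fails -/
noncomputable def frakM : Cardinal.{0} := sInf {κ | ¬ MA κ}

theorem MA_of_lt_frakM {κ : Cardinal.{0}} (h : κ < frakM) : MA κ := by
  by_contra hn
  exact absurd (csInf_le' (show κ ∈ {κ | ¬ MA κ} from hn)) (not_le.2 h)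

theorem lt_frakM_of_MA {κ : Cardinal.{0}} (h : MA κ) : κ < frakM := by
  by_contra hn
  have h1 : frakM ∈ {κ | ¬ MA κ} := csInf_mem ⟨𝔠, not_MA_continuum⟩
  exact h1 (h.mono (not_lt.1 hn))

theorem aleph0_lt_frakM : ℵ₀ < frakM := lt_frakM_of_MA MA_aleph0

theorem frakM_le_continuum : frakM ≤ 𝔠 := csInf_le' not_MA_continuum

end Pool.Agent.H90
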