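import Mathlib

/-!
`C(ℕ*)` and bounded sequences; a linear extension lemma.
-/

namespace Pool.Agent.H90

open Filter Topology

/-- `ℕ* = βℕ \ ℕ` -/
abbrev NStar : Type := ↥((Set.range (stoneCechUnit : ℕ → StoneCech ℕ))ᶜ)

/-- separating function -/
theorem exists_sep (n : ℕ) : ∃ G : StoneCech ℕ → Bool, Continuous G ∧
    ∀ m, G (stoneCechUnit m) = decide (m = n) := by
  have hf : Continuous (fun m : ℕ => decide (m = n)) := continuous_of_discreteTopology
  exact ⟨stoneCechExtend hf, continuous_stoneCechExtend hf,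
    fun m => stoneCechExtend_stoneCechUnit hf m⟩

theorem unit_injective : Function.Injective (stoneCechUnit : ℕ → StoneCech ℕ) := by
  intro m n h
  obtain ⟨G, -, hG⟩ := exists_sep n
  have h1 := hG m
  rw [h, hG n] at h1
  simpa using h1

theorem isOpen_unit (n : ℕ) : IsOpen ({stoneCechUnit n} : Set (StoneCech ℕ)) := by
  obtain ⟨G, hGc, hG⟩ := exists_sep n
  have hU : IsOpen (G ⁻¹' {true}) := (isOpen_discrete _).preimage hGc
  have heq : G ⁻¹' {true} = {stoneCechUnit n} := by
    apply Set.Subset.antisymm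
    · intro x hx
      have hx : G x = true := hx
      by_contra hne
      have hne : x ≠ stoneCechUnit n := hne
      obtain ⟨V, W, hV, hW, hxV, hnW, hdis⟩ := t2_separation hne
      have hVU : (V ∩ G ⁻¹' {true}).Nonempty := ⟨x, hxV, hx⟩
      obtain ⟨y, hy, ⟨m, rfl⟩⟩ := denseRange_stoneCechUnit.inter_open_nonempty _
        (hV.inter hU) hVU
      have h1 : G (stoneCechUnit m) = true := hy.2
      rw [hG m] at h1
      have h2 : m = n := by simpa using h1
      subst h2
      exact Set.disjoint_left.1 hdis hy.1 hnW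
    · rintro _ rfl
      show G _ = true
      rw [hG n]; simp
  rw [← heq]; exact hU

theorem isClosed_nstar : IsClosed ((Set.range (stoneCechUnit : ℕ → StoneCech ℕ))ᶜ) := by
  rw [isClosed_compl_iff, ← Set.iUnion_singleton_eq_range]
  exact isOpen_iUnion isOpen_unit

instance : CompactSpace NStar := isCompact_iff_compactSpace.1 isClosed_nstar.isCompact

theorem exists_ext_seq (a : ℕ → ℝ) (B : ℝ) (h : ∀ n, |a n| ≤ B) :
    ∃ g : C(StoneCech ℕ, ℝ), ∀ n, g (stoneCechUnit n) = a n := by
  let f : ℕ → Set.Icc (-B) B := fun n => ⟨a n, abs_le.1 (h n)⟩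
  have hf : Continuous f := continuous_of_discreteTopology
  let E : StoneCech ℕ → Set.Icc (-B) B := stoneCechExtend hf
  have hE : Continuous E := continuous_stoneCechExtend hf
  refine ⟨⟨fun x => (E x).1, continuous_subtype_val.comp hE⟩, ?_⟩
  intro n
  show (E (stoneCechUnit n)).1 = a n
  have : E (stoneCechUnit n) = f n := stoneCechExtend_stoneCechUnit hf n
  rw [this]

/-- eventual bounds on the sequence give bounds on `ℕ*` -/
theorem le_on_nstar (g : C(StoneCech ℕ, ℝ)) (c : ℝ)
    (h : ∀ᶠ n in atTop, g (stoneCechUnit n) ≤ c) (x : NStar) : g x.1 ≤ c := by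
  obtain ⟨N, hN⟩ := eventually_atTop.1 h
  have h1 : x.1 ∈ closure (stoneCechUnit '' {n : ℕ | N ≤ n}) := by
    have h2 : x.1 ∈ closure (Set.range (stoneCechUnit : ℕ → StoneCech ℕ)) :=
      denseRange_stoneCechUnit x.1
    have h3 : Set.range (stoneCechUnit : ℕ → StoneCech ℕ) =
        stoneCechUnit '' {n : ℕ | n < N} ∪ stoneCechUnit '' {n : ℕ | N ≤ n} := by
      rw [← Set.image_union, ← Set.image_univ]
      congr 1
      ext n
      simp [lt_or_ge]
    have hcl : closure (Set.range (stoneCechUnit : ℕ → StoneCech ℕ)) =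
        closure (stoneCechUnit '' {n : ℕ | n < N}) ∪ closure (stoneCechUnit '' {n : ℕ | N ≤ n}) := by
      rw [h3, closure_union]
    rcases (Set.ext_iff.1 hcl x.1).1 h2 with h2 | h2
    · have hfin : (stoneCechUnit '' {n : ℕ | n < N}).Finite := (Set.finite_lt_nat N).image _
      rw [hfin.isClosed.closure_eq] at h2
      obtain ⟨m, -, hm⟩ := h2
      exact absurd ⟨m, hm⟩ x.2
    · exact h2
  have h4 : closure (stoneCechUnit '' {n : ℕ | N ≤ n}) ⊆ g ⁻¹' (Set.Iic c) := by
    refine closure_minimal ?_ (isClosed_Iic.preimage g.continuous)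
    rintro _ ⟨n, hn, rfl⟩
    exact hN n hn
  exact h4 h1

/-- bounds on `ℕ*` give eventual bounds on the sequence -/
theorem eventually_le_of_nstar (g : C(StoneCech ℕ, ℝ)) (c : ℝ) (h : ∀ x : NStar, g x.1 ≤ c)
    {ε : ℝ} (hε : 0 < ε) : ∀ᶠ n in atTop, g (stoneCechUnit n) ≤ c + ε := by
  by_contra hcon
  rw [not_eventually] at hcon
  let S : Set ℕ := {n | ¬ g (stoneCechUnit n) ≤ c + ε}
  let Fl : Filter (StoneCech ℕ) := map stoneCechUnit (atTop ⊓ 𝓟 S)
  have hne : NeBot (atTop ⊓ 𝓟 S) := frequently_mem_iff_neBot.1 hcon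
  have hne' : NeBot Fl := hne.map _
  obtain ⟨x, hx⟩ := exists_clusterPt_of_compactSpace Fl
  have hxS : c + ε ≤ g x := by
    have hcl : IsClosed {y | c + ε ≤ g y} := isClosed_le continuous_const g.continuous
    have hmem : {y | c + ε ≤ g y} ∈ Fl := by
      refine mem_map.2 (mem_inf_of_right ?_)
      intro n hn
      have hn : ¬ g (stoneCechUnit n) ≤ c + ε := hn
      exact (not_le.1 hn).le
    have := mem_closure_iff_clusterPt.2 (hx.mono (le_principal_iff.2 hmem))
    rwa [hcl.closure_eq] at this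
  have hxN : x ∈ ((Set.range (stoneCechUnit : ℕ → StoneCech ℕ))ᶜ) := by
    rintro ⟨n, rfl⟩
    have h1 : {stoneCechUnit n} ∈ 𝓝 (stoneCechUnit n : StoneCech ℕ) :=
      (isOpen_unit n).mem_nhds rfl
    have h2 : stoneCechUnit '' {m : ℕ | n < m} ∈ Fl := by
      refine mem_map.2 (mem_inf_of_left ?_)
      filter_upwards [eventually_gt_atTop n] with m hm
      exact ⟨m, hm, rfl⟩
    obtain ⟨y, hy1, m, hm, hy2⟩ := clusterPt_iff_nonempty.1 hx h1 h2
    have h3 : y = stoneCechUnit n := hy1
    have h4 : m = n := unit_injective (hy2.trans h3)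
    have hm : n < m := hm
    omega
  have := h ⟨x, hxN⟩
  have h5 : g x ≤ c := this
  linarith

/-- Tietze -/
theorem exists_ext_nstar (h : C(NStar, ℝ)) : ∃ g : C(StoneCech ℕ, ℝ), ∀ x : NStar, g x.1 = h x := by
  obtain ⟨g, hg⟩ := ContinuousMap.exists_restrict_eq isClosed_nstar h
  exact ⟨g, fun x => by rw [← hg]; rfl⟩

/-- extension of an approximately linear map from a dense family -/
theorem ext_lin {X Z : Type*} [NormedAddCommGroup X] [NormedSpace ℝ X] [NormedAddCommGroup Z]
    [NormedSpace ℝ Z] [CompleteSpace Z] {ι : Type*} (u : ι → X) (hu : DenseRange u) (T0 : ι → Z)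
    (C : ℝ) (hC : 0 ≤ C) (h1 : ∀ i, ‖T0 i‖ ≤ C * ‖u i‖)
    (h2 : ∀ i j l, ∀ s : ℝ, ‖T0 l - T0 i - s • T0 j‖ ≤ C * ‖u l - u i - s • u j‖) :
    ∃ T : X →L[ℝ] Z, ‖T‖ ≤ C ∧ ∀ i, T (u i) = T0 i := by
  have hap : ∀ (x : X) (η : ℝ), 0 < η → ∃ i, ‖x - u i‖ < η := by
    intro x η hη
    obtain ⟨i, hi⟩ := hu.exists_dist_lt x hη
    exact ⟨i, by rwa [dist_eq_norm] at hi⟩
  have hL : ∀ i l, ‖T0 l - T0 i‖ ≤ C * ‖u l - u i‖ := by
    intro i l
    have := h2 i i l 0
    simpa using this
  have key : ∀ x : X, ∃ z : Z, ∀ i, ‖z - T0 i‖ ≤ C * ‖x - u i‖ := by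
    intro x
    have hseq : ∀ n : ℕ, ∃ i, ‖x - u i‖ < 1 / ((n : ℝ) + 1) := fun n => hap x _ (by positivity)
    choose a ha using hseq
    have hlim : Tendsto (fun n => ‖x - u (a n)‖) atTop (𝓝 0) :=
      squeeze_zero (fun _ => norm_nonneg _) (fun n => (ha n).le)
        tendsto_one_div_add_atTop_nhds_zero_nat
    have hcau : CauchySeq fun n => T0 (a n) := by
      rw [Metric.cauchySeq_iff']
      intro ε hε
      have hpos : 0 < ε / (2 * (C + 1)) := by positivity
      obtain ⟨N, hN⟩ := (hlim.eventually (gt_mem_nhds hpos)).exists_forall_of_atTop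
      refine ⟨N, fun n hn => ?_⟩
      rw [dist_eq_norm]
      have e1 : ‖u (a n) - u (a N)‖ ≤ ‖x - u (a n)‖ + ‖x - u (a N)‖ := by
        have := norm_sub_le (x - u (a N)) (x - u (a n))
        have e : x - u (a N) - (x - u (a n)) = u (a n) - u (a N) := by abel
        rw [e] at this
        linarith
      have e2 := hN n hn
      have e3 := hN N le_rfl
      calc ‖T0 (a n) - T0 (a N)‖ ≤ C * ‖u (a n) - u (a N)‖ := hL _ _
        _ ≤ C * (‖x - u (a n)‖ + ‖x - u (a N)‖) := mul_le_mul_of_nonneg_left e1 hC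
        _ ≤ C * (ε / (2 * (C + 1)) + ε / (2 * (C + 1))) :=
            mul_le_mul_of_nonneg_left (by linarith) hC
        _ < ε := by
            have : C * (ε / (2 * (C + 1)) + ε / (2 * (C + 1))) = C / (C + 1) * ε := by
              field_simp; ring
            rw [this]
            have h3 : C / (C + 1) < 1 := by rw [div_lt_one (by linarith)]; linarith
            nlinarith
    obtain ⟨z, hz⟩ := cauchySeq_tendsto_of_complete hcau
    refine ⟨z, fun i => ?_⟩
    have t1 : Tendsto (fun n => ‖T0 (a n) - T0 i‖) atTop (𝓝 ‖z - T0 i‖) :=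
      (hz.sub_const _).norm
    have t2 : Tendsto (fun n => C * (‖x - u (a n)‖ + ‖x - u i‖)) atTop
        (𝓝 (C * (0 + ‖x - u i‖))) := (hlim.add_const _).const_mul _
    rw [zero_add] at t2
    refine le_of_tendsto_of_tendsto t1 t2 (Eventually.of_forall fun n => ?_)
    refine (hL i (a n)).trans (mul_le_mul_of_nonneg_left ?_ hC)
    have := norm_sub_le (x - u i) (x - u (a n))
    have e : x - u i - (x - u (a n)) = u (a n) - u i := by abel
    rw [e] at this
    linarith
  choose T hT using key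
  have hlin : ∀ (x y : X) (s : ℝ), T (x + s • y) = T x + s • T y := by
    intro x y s
    have hb : ∀ η : ℝ, 0 < η → ‖T (x + s • y) - T x - s • T y‖ ≤ (2 * C * (2 + |s|)) * η := by
      intro η hη
      obtain ⟨l, hl⟩ := hap (x + s • y) η hη
      obtain ⟨i, hi⟩ := hap x η hη
      obtain ⟨j, hj⟩ := hap y η hη
      have e1 := hT (x + s • y) l
      have e2 := hT x i
      have e3 := hT y j
      have e4 := h2 i j l s
      have e5 : ‖u l - u i - s • u j‖ ≤ ‖x + s • y - u l‖ + ‖x - u i‖ + |s| * ‖y - u j‖ := by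
        have e : u l - u i - s • u j = -(x + s • y - u l) + (x - u i) + s • (y - u j) := by
          rw [smul_sub]; abel
        rw [e]
        refine (norm_add_le _ _).trans ?_
        rw [norm_smul, Real.norm_eq_abs]
        have := norm_add_le (-(x + s • y - u l)) (x - u i)
        rw [norm_neg] at this
        linarith
      have e6 : T (x + s • y) - T x - s • T y = (T (x + s • y) - T0 l) - (T x - T0 i) -
          s • (T y - T0 j) + (T0 l - T0 i - s • T0 j) := by
        rw [smul_sub]; abel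
      rw [e6]
      have e7 : ‖(T (x + s • y) - T0 l) - (T x - T0 i) - s • (T y - T0 j) +
          (T0 l - T0 i - s • T0 j)‖ ≤ ‖T (x + s • y) - T0 l‖ + ‖T x - T0 i‖ +
          |s| * ‖T y - T0 j‖ + ‖T0 l - T0 i - s • T0 j‖ := by
        refine (norm_add_le _ _).trans ?_
        have g1 := norm_sub_le ((T (x + s • y) - T0 l) - (T x - T0 i)) (s • (T y - T0 j))
        have g2 := norm_sub_le (T (x + s • y) - T0 l) (T x - T0 i)
        rw [norm_smul, Real.norm_eq_abs] at g1
        linarith
      refine e7.trans ?_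
      have c1 : C * ‖x + s • y - u l‖ ≤ C * η := mul_le_mul_of_nonneg_left hl.le hC
      have c2 : C * ‖x - u i‖ ≤ C * η := mul_le_mul_of_nonneg_left hi.le hC
      have c3 : C * ‖y - u j‖ ≤ C * η := mul_le_mul_of_nonneg_left hj.le hC
      have c4 : |s| * ‖T y - T0 j‖ ≤ |s| * (C * η) :=
        mul_le_mul_of_nonneg_left (e3.trans c3) (abs_nonneg s)
      have c5 : C * ‖u l - u i - s • u j‖ ≤ C * (η + η + |s| * η) := by
        refine mul_le_mul_of_nonneg_left (e5.trans ?_) hC
        have := mul_le_mul_of_nonneg_left hj.le (abs_nonneg s)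
        linarith
      nlinarith
    have hz : ‖T (x + s • y) - T x - s • T y‖ ≤ 0 := by
      refine le_of_forall_pos_le_add fun ε hε => ?_
      have hM : 0 < 2 * C * (2 + |s|) + 1 := by positivity
      have := hb (ε / (2 * C * (2 + |s|) + 1)) (by positivity)
      refine this.trans ?_
      rw [zero_add, ← mul_div_assoc, div_le_iff₀ hM]
      nlinarith [show (0:ℝ) ≤ 2 * C * (2 + |s|) by positivity]
    have := norm_le_zero_iff.1 hz
    rw [sub_sub, sub_eq_zero] at this
    exact this
  have hT0 : T 0 = 0 := by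
    have := hlin 0 0 1
    simp only [smul_zero, add_zero, one_smul] at this
    exact left_eq_add.1 this
  let TL : X →ₗ[ℝ] Z :=
    { toFun := T
      map_add' := fun x y => by simpa using hlin x y 1
      map_smul' := fun s y => by
        have := hlin 0 y s
        rw [zero_add, hT0, zero_add] at this
        exact this }
  have hTu : ∀ i, T (u i) = T0 i := by
    intro i
    have := hT (u i) i
    rw [sub_self, norm_zero, mul_zero] at this
    exact sub_eq_zero.1 (norm_le_zero_iff.1 this)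
  have hbd : ∀ x, ‖TL x‖ ≤ C * ‖x‖ := by
    intro x
    have hb : ∀ η : ℝ, 0 < η → ‖T x‖ ≤ C * ‖x‖ + 2 * C * η := by
      intro η hη
      obtain ⟨i, hi⟩ := hap x η hη
      have e1 := hT x i
      have e2 := h1 i
      have e3 : ‖T x‖ ≤ ‖T x - T0 i‖ + ‖T0 i‖ := by
        have := norm_add_le (T x - T0 i) (T0 i)
        simpa using this
      have e4 : ‖u i‖ ≤ ‖x‖ + ‖x - u i‖ := by
        have := norm_sub_le x (x - u i)
        simpa using this
      nlinarith [mul_le_mul_of_nonneg_left e4 hC, mul_le_mul_of_nonneg_left hi.le hC]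
    show ‖T x‖ ≤ C * ‖x‖
    refine le_of_forall_pos_le_add fun ε hε => ?_
    have := hb (ε / (2 * C + 1)) (by positivity)
    refine this.trans ?_
    have hM : 0 < 2 * C + 1 := by positivity
    have : 2 * C * (ε / (2 * C + 1)) ≤ ε := by
      rw [← mul_div_assoc, div_le_iff₀ hM]
      nlinarith
    linarith
  exact ⟨TL.mkContinuous C hbd, LinearMap.mkContinuous_norm_le _ hC _, hTu⟩

end Pool.Agent.H90
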