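import Pool.Agent.H90.InjPoset
import Pool.Agent.H90.InjNStar

/-!
Under `MA κ`, operators from subspaces of spaces of density `≤ κ` into `C(ℕ*)` extend with
constant `3`.
-/

namespace Pool.Agent.H90

open Filter Topology

universe v

section

variable {ι : Type} {X : Type v} [NormedAddCommGroup X] [NormedSpace ℝ X]

theorem extend_of_family {κ : Cardinal.{0}} (hMA : MA κ) (hκ : Cardinal.aleph0 ≤ κ)
    (hι : Cardinal.mk ι ≤ κ) (u : ι → X) (hu : DenseRange u) (Y : Submodule ℝ X) (J : Set ι)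
    (hJ : ∀ i ∈ J, u i ∈ Y) (hJd : ∀ y ∈ Y, ∀ ε : ℝ, 0 < ε → ∃ i ∈ J, ‖y - u i‖ < ε)
    (t : Y →L[ℝ] C(NStar, ℝ)) :
    ∃ T : X →L[ℝ] C(NStar, ℝ), (∀ y : Y, T y = t y) ∧ ‖T‖ ≤ 3 * ‖t‖ := by
  classical
  -- representatives
  have hrep : ∀ i : ι, ∃ g : C(StoneCech ℕ, ℝ), ∀ hi : i ∈ J, ∀ x : NStar,
      g x.1 = t ⟨u i, hJ i hi⟩ x := by
    intro i
    by_cases hi : i ∈ J
    · obtain ⟨g, hg⟩ := exists_ext_nstar (t ⟨u i, hJ i hi⟩)
      exact ⟨g, fun _ => hg⟩
    · exact ⟨0, fun h => absurd h hi⟩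
  choose g hg using hrep
  let τ : ι → ℕ → ℝ := fun i n => g i (stoneCechUnit n)
  have hτb : ∀ i n, |τ i n| ≤ ‖g i‖ := fun i n => by
    rw [← Real.norm_eq_abs]; exact (g i).norm_coe_le_norm _
  have H : Hyp u J τ ‖t‖ := by
    refine ⟨t.opNorm_nonneg, ?_⟩
    intro F hF δ hδ
    refine eventually_strong F u τ ‖t‖ (∑ i ∈ F, ‖g i‖) ?_ ?_ hδ
    · intro i hi k
      exact (hτb i k).trans (Finset.single_le_sum (f := fun i => ‖g i‖)
        (fun i _ => norm_nonneg _) hi)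
    · intro c η hη
      -- the function `∑ c i • g i`
      let G : C(StoneCech ℕ, ℝ) := ∑ i ∈ F, c i • g i
      have hG : ∀ x, G x = ∑ i ∈ F, c i * g i x := by
        intro x
        simp [G, ContinuousMap.coe_sum]
      let yv : Y := ∑ i : F, c i • (⟨u i, hJ i (hF i i.2)⟩ : Y)
      have hyv : (yv : X) = ∑ i ∈ F, c i • u i := by
        rw [← Finset.sum_coe_sort F]
        simp [yv]
      have hGx : ∀ x : NStar, G x.1 = t yv x := by
        intro x
        rw [hG, ← Finset.sum_coe_sort F]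
        simp only [yv, map_sum, map_smul, ContinuousMap.coe_sum, Finset.sum_apply,
          ContinuousMap.coe_smul, Pi.smul_apply, smul_eq_mul]
        exact Finset.sum_congr rfl fun i _ => by rw [hg i (hF i i.2) x]
      have hbd : ∀ x : NStar, |G x.1| ≤ ‖t‖ * ‖∑ i ∈ F, c i • u i‖ := by
        intro x
        rw [hGx, ← Real.norm_eq_abs, ← hyv]
        exact ((t yv).norm_coe_le_norm x).trans (t.le_opNorm yv)
      have h1 := eventually_le_of_nstar G _ (fun x => (le_abs_self _).trans (hbd x)) hη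
      have h2 := eventually_le_of_nstar (-G) _ (fun x => (neg_le_abs _).trans (hbd x)) hη
      filter_upwards [h1, h2] with k hk1 hk2
      have e : ∑ i ∈ F, c i * τ i k = G (stoneCechUnit k) := (hG _).symm
      have hk2 : - G (stoneCechUnit k) ≤ _ := hk2
      rw [e, abs_le]
      constructor <;> linarith
  obtain ⟨f, hf⟩ := exists_seq hMA hκ hι H
  set K := ‖t‖ with hK
  have hK0 : 0 ≤ K := t.opNorm_nonneg
  -- boundedness
  have hfb : ∀ i, ∃ B, ∀ n, |f i n| ≤ B := by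
    intro i
    obtain ⟨N, hN⟩ := eventually_atTop.1 (hf {i} 1 one_pos)
    refine ⟨(3 * K * ‖u i‖ + 1) + ∑ n ∈ Finset.range N, |f i n|, fun n => ?_⟩
    have hs : 0 ≤ ∑ n ∈ Finset.range N, |f i n| := Finset.sum_nonneg fun _ _ => abs_nonneg _
    rcases lt_or_ge n N with hn | hn
    · have := Finset.single_le_sum (f := fun n => |f i n|) (fun _ _ => abs_nonneg _)
        (Finset.mem_range.2 hn)
      have h0 : 0 ≤ 3 * K * ‖u i‖ := by positivity
      linarith
    · obtain ⟨ξ, h1, h2, -⟩ := hN n hn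
      have h3 := h2 i (Finset.mem_singleton_self i)
      have h4 : |ξ (u i)| ≤ 3 * K * ‖u i‖ := by
        rw [← Real.norm_eq_abs]
        exact (ξ.le_opNorm _).trans (mul_le_mul_of_nonneg_right h1 (norm_nonneg _))
      have h5 : |f i n| ≤ |ξ (u i)| + |ξ (u i) - f i n| := by
        have := abs_sub (ξ (u i)) (ξ (u i) - f i n)
        simpa using this
      linarith
  choose B hB using hfb
  have hext : ∀ i, ∃ G : C(StoneCech ℕ, ℝ), ∀ n, G (stoneCechUnit n) = f i n :=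
    fun i => exists_ext_seq (f i) (B i) (hB i)
  choose G hG using hext
  let ρ : C(NStar, StoneCech ℕ) := ⟨Subtype.val, continuous_subtype_val⟩
  let T0 : ι → C(NStar, ℝ) := fun i => (G i).comp ρ
  have hT0 : ∀ i (x : NStar), T0 i x = G i x.1 := fun i x => rfl
  -- bounds from eventual bounds
  have hnorm : ∀ (g : C(StoneCech ℕ, ℝ)) (c : ℝ), 0 ≤ c →
      (∀ ε : ℝ, 0 < ε → ∀ᶠ n in atTop, |g (stoneCechUnit n)| ≤ c + ε) →
      ‖g.comp ρ‖ ≤ c := by
    intro g c hc h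
    rw [ContinuousMap.norm_le _ hc]
    intro x
    refine le_of_forall_pos_le_add fun ε hε => ?_
    rw [Real.norm_eq_abs, abs_le]
    have h1 := le_on_nstar g (c + ε) ((h ε hε).mono fun n hn => (le_abs_self _).trans hn) x
    have h2 := le_on_nstar (-g) (c + ε) ((h ε hε).mono fun n hn => (neg_le_abs _).trans hn) x
    have h2 : - g x.1 ≤ c + ε := h2
    have h3 : (g.comp ρ) x = g x.1 := rfl
    rw [h3]
    constructor <;> linarith
  have hT1 : ∀ i, ‖T0 i‖ ≤ 3 * K * ‖u i‖ := by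
    intro i
    refine hnorm (G i) _ (by positivity) ?_
    intro ε hε
    filter_upwards [hf {i} ε hε] with n hn
    obtain ⟨ξ, h1, h2, -⟩ := hn
    have h3 := h2 i (Finset.mem_singleton_self i)
    have h4 : |ξ (u i)| ≤ 3 * K * ‖u i‖ := by
      rw [← Real.norm_eq_abs]
      exact (ξ.le_opNorm _).trans (mul_le_mul_of_nonneg_right h1 (norm_nonneg _))
    have h5 : |f i n| ≤ |ξ (u i)| + |ξ (u i) - f i n| := by
      have := abs_sub (ξ (u i)) (ξ (u i) - f i n)
      simpa using this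
    rw [hG]
    linarith
  have hT2 : ∀ i j l, ∀ s : ℝ, ‖T0 l - T0 i - s • T0 j‖ ≤ 3 * K * ‖u l - u i - s • u j‖ := by
    intro i j l s
    have e : T0 l - T0 i - s • T0 j = (G l - G i - s • G j).comp ρ := rfl
    rw [e]
    refine hnorm _ _ (by positivity) ?_
    intro ε hε
    have hpos : 0 < ε / (2 + |s|) := by positivity
    filter_upwards [hf {i, j, l} _ hpos] with n hn
    obtain ⟨ξ, h1, h2, -⟩ := hn
    have hi := h2 i (by simp)
    have hj := h2 j (by simp)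
    have hl := h2 l (by simp)
    have h4 : |ξ (u l - u i - s • u j)| ≤ 3 * K * ‖u l - u i - s • u j‖ := by
      rw [← Real.norm_eq_abs]
      exact (ξ.le_opNorm _).trans (mul_le_mul_of_nonneg_right h1 (norm_nonneg _))
    rw [map_sub, map_sub, map_smul, smul_eq_mul] at h4
    have e2 : (G l - G i - s • G j) (stoneCechUnit n) = f l n - f i n - s * f j n := by
      show G l _ - G i _ - s * G j _ = _
      rw [hG, hG, hG]
    rw [e2]
    have h5 : f l n - f i n - s * f j n = (ξ (u l) - ξ (u i) - s * ξ (u j)) -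
      (ξ (u l) - f l n) + (ξ (u i) - f i n) + s * (ξ (u j) - f j n) := by ring
    have h6 : |s * (ξ (u j) - f j n)| ≤ |s| * (ε / (2 + |s|)) := by
      rw [abs_mul]; exact mul_le_mul_of_nonneg_left hj (abs_nonneg s)
    have h7 : ε / (2 + |s|) + ε / (2 + |s|) + |s| * (ε / (2 + |s|)) = ε := by
      field_simp; ring
    rw [h5]
    have g1 := abs_add_le ((ξ (u l) - ξ (u i) - s * ξ (u j)) - (ξ (u l) - f l n) +
      (ξ (u i) - f i n)) (s * (ξ (u j) - f j n))
    have g2 := abs_add_le ((ξ (u l) - ξ (u i) - s * ξ (u j)) - (ξ (u l) - f l n))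
      (ξ (u i) - f i n)
    have g3 := abs_sub (ξ (u l) - ξ (u i) - s * ξ (u j)) (ξ (u l) - f l n)
    linarith
  have hT3 : ∀ i (hi : i ∈ J), T0 i = t ⟨u i, hJ i hi⟩ := by
    intro i hi
    have h0 : ‖(G i - g i).comp ρ‖ ≤ 0 := by
      refine hnorm _ _ le_rfl ?_
      intro ε hε
      filter_upwards [hf {i} (ε / 2) (half_pos hε)] with n hn
      obtain ⟨ξ, -, h2, h3⟩ := hn
      have h4 := h2 i (Finset.mem_singleton_self i)
      have h5 := h3 i (Finset.mem_singleton_self i) hi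
      have e : (G i - g i) (stoneCechUnit n) = (ξ (u i) - τ i n) - (ξ (u i) - f i n) := by
        show G i _ - g i _ = _
        rw [hG]
        show f i n - τ i n = _
        ring
      rw [e]
      have := abs_sub (ξ (u i) - τ i n) (ξ (u i) - f i n)
      linarith
    have h1 := norm_le_zero_iff.1 h0
    ext x
    have h2 : ((G i - g i).comp ρ) x = 0 := by rw [h1]; rfl
    have h3 : G i x.1 - g i x.1 = 0 := h2
    rw [hT0, ← hg i hi x]
    linarith
  obtain ⟨T, hT, hTu⟩ := ext_lin u hu T0 (3 * K) (by positivity) hT1 hT2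
  refine ⟨T, ?_, hT⟩
  intro y
  have hz : ‖T y - t y‖ ≤ 0 := by
    refine le_of_forall_pos_le_add fun ε hε => ?_
    obtain ⟨i, hi, hyi⟩ := hJd y y.2 (ε / (‖T‖ + ‖t‖ + 1)) (by positivity)
    have e : T y - t y = T (y - u i) - t (y - ⟨u i, hJ i hi⟩) := by
      rw [map_sub, map_sub, hTu, hT3 i hi]; abel
    have e2 : ‖(y - ⟨u i, hJ i hi⟩ : Y)‖ = ‖(y : X) - u i‖ := rfl
    rw [e, zero_add]
    refine (norm_sub_le _ _).trans ?_
    have h1 := T.le_opNorm ((y : X) - u i)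
    have h2 := t.le_opNorm (y - ⟨u i, hJ i hi⟩)
    rw [e2] at h2
    have h3 : (‖T‖ + ‖t‖ + 1) * ‖(y : X) - u i‖ ≤ ε := by
      rw [lt_div_iff₀ (by positivity)] at hyi
      linarith
    nlinarith [norm_nonneg ((y : X) - u i)]
  exact sub_eq_zero.1 (norm_le_zero_iff.1 hz)

end

theorem extend_operator {κ : Cardinal.{0}} (hMA : MA κ) (hκ : Cardinal.aleph0 ≤ κ)
    {X : Type v} [NormedAddCommGroup X] [NormedSpace ℝ X] {S : Type} (d : S → X)
    (hS : DenseRange d) (hSκ : Cardinal.mk S ≤ κ)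
    (Y : Submodule ℝ X) (t : Y →L[ℝ] C(NStar, ℝ)) :
    ∃ T : X →L[ℝ] C(NStar, ℝ), (∀ y : Y, T y = t y) ∧ ‖T‖ ≤ 3 * ‖t‖ := by
  classical
  have hy : ∀ x : S × ℕ, ∃ y ∈ Y, (∃ y' ∈ Y, ‖d x.1 - y'‖ < 1 / ((x.2 : ℝ) + 1)) →
      ‖d x.1 - y‖ < 1 / ((x.2 : ℝ) + 1) := by
    intro x
    by_cases h : ∃ y' ∈ Y, ‖d x.1 - y'‖ < 1 / ((x.2 : ℝ) + 1)
    · obtain ⟨y', h1, h2⟩ := h
      exact ⟨y', h1, fun _ => h2⟩
    · exact ⟨0, Y.zero_mem, fun h' => absurd h' h⟩
  choose w hwY hw using hy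
  let u : S ⊕ (S × ℕ) → X := Sum.elim d w
  have hcard : Cardinal.mk (S ⊕ (S × ℕ)) ≤ κ := by
    rw [Cardinal.mk_sum, Cardinal.lift_id, Cardinal.lift_id, Cardinal.mk_prod, Cardinal.lift_id,
      Cardinal.lift_id, Cardinal.mk_nat]
    have h1 : Cardinal.mk S * Cardinal.aleph0 ≤ κ :=
      (mul_le_mul' hSκ hκ).trans (Cardinal.mul_eq_self hκ).le
    exact (add_le_add hSκ h1).trans (Cardinal.add_eq_self hκ).le
  refine extend_of_family hMA hκ hcard u ?_ Y (Set.range Sum.inr) ?_ ?_ t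
  · refine Dense.mono ?_ hS
    rintro _ ⟨s, rfl⟩
    exact ⟨Sum.inl s, rfl⟩
  · rintro _ ⟨x, rfl⟩
    exact hwY x
  · intro y hy ε hε
    obtain ⟨n, hn⟩ := exists_nat_one_div_lt (half_pos hε)
    obtain ⟨s, hsy⟩ := hS.exists_dist_lt y (show (0:ℝ) < 1 / ((n : ℝ) + 1) by positivity)
    rw [dist_eq_norm] at hsy
    have h1 := hw (s, n) ⟨y, hy, by rw [norm_sub_rev]; exact hsy⟩
    refine ⟨Sum.inr (s, n), ⟨_, rfl⟩, ?_⟩
    have e : y - u (Sum.inr (s, n)) = (y - d s) + (d s - w (s, n)) := by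
      show y - w _ = _
      abel
    rw [e]
    have h1 : ‖d s - w (s, n)‖ < 1 / ((n : ℝ) + 1) := h1
    have := norm_add_le (y - d s) (d s - w (s, n))
    linarith

end Pool.Agent.H90
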