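import Pool.Agent.H90.InjAmalg

/-!
The poset of finite approximations to an extension of an operator into `ℓ∞/c₀`, its countable
chain condition, and the sequences obtained from Martin's axiom.
-/

namespace Pool.Agent.H90

open Finset Filter Topology

/-- the countable chain condition -/
def CCC (P : Type) [Preorder P] : Prop :=
  ∀ A : Set P, (∀ p ∈ A, ∀ q ∈ A, p ≠ q → ¬ ∃ r, r ≤ p ∧ r ≤ q) → A.Countable

/-- Martin's axiom for `κ` dense sets -/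
def MA (κ : Cardinal.{0}) : Prop :=
  ∀ (P : Type) [Preorder P] [Nonempty P], CCC P →
    ∀ (I : Type) (D : I → Set P), Cardinal.mk I ≤ κ → (∀ i, ∀ p, ∃ q, q ≤ p ∧ q ∈ D i) →
      ∃ G : Set P, (∀ p ∈ G, ∀ q, p ≤ q → q ∈ G) ∧ (∀ p ∈ G, ∀ q ∈ G, ∃ r ∈ G, r ≤ p ∧ r ≤ q) ∧
        G.Nonempty ∧ ∀ i, ∃ p ∈ G, p ∈ D i

universe v

section Poset

variable {ι : Type} {X : Type v} [NormedAddCommGroup X] [NormedSpace ℝ X]

/-- conditions -/
structure Cond (u : ι → X) (J : Set ι) (τ : ι → ℕ → ℝ) (K : ℝ) : Type where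
  /-- finite set of indices -/
  F : Finset ι
  /-- length -/
  n : ℕ
  /-- values (only those in `F × n` matter) -/
  f : ι → ℕ → ℚ
  /-- precision -/
  ε : ℚ
  hε : 0 < ε
  valid : ∀ k, n ≤ k → ∃ ξ : X →L[ℝ] ℝ, ‖ξ‖ ≤ 3 * K ∧ ∀ i ∈ F, i ∈ J → |ξ (u i) - τ i k| ≤ ε

variable {u : ι → X} {J : Set ι} {τ : ι → ℕ → ℝ} {K : ℝ}

instance : Preorder (Cond u J τ K) where
  le q p := p.F ⊆ q.F ∧ p.n ≤ q.n ∧ q.ε ≤ p.ε ∧ (∀ i ∈ p.F, ∀ k, k < p.n → q.f i k = p.f i k) ∧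
    ∀ k, p.n ≤ k → k < q.n → ∃ ξ : X →L[ℝ] ℝ, ‖ξ‖ ≤ 3 * K ∧
      (∀ i ∈ p.F, |ξ (u i) - q.f i k| ≤ p.ε) ∧ ∀ i ∈ p.F, i ∈ J → |ξ (u i) - τ i k| ≤ p.ε
  le_refl p := ⟨subset_rfl, le_rfl, le_rfl, fun _ _ _ _ => rfl, fun k h1 h2 => by omega⟩
  le_trans r q p := by
    rintro ⟨h1, h2, h3, h4, h5⟩ ⟨g1, g2, g3, g4, g5⟩
    refine ⟨g1.trans h1, g2.trans h2, h3.trans g3, ?_, ?_⟩
    · intro i hi k hk
      rw [h4 i (g1 hi) k (by omega), g4 i hi k hk]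
    · intro k hk1 hk2
      rcases lt_or_ge k q.n with hk | hk
      · obtain ⟨ξ, a, b, c⟩ := g5 k hk1 hk
        refine ⟨ξ, a, ?_, c⟩
        intro i hi
        rw [h4 i (g1 hi) k hk]
        exact b i hi
      · obtain ⟨ξ, a, b, c⟩ := h5 k hk hk2
        have g3' : (q.ε : ℝ) ≤ p.ε := by exact_mod_cast g3
        exact ⟨ξ, a, fun i hi => (b i (g1 hi)).trans g3', fun i hi hJ => (c i (g1 hi) hJ).trans g3'⟩

theorem Cond.le_def {p q : Cond u J τ K} : q ≤ p ↔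
    p.F ⊆ q.F ∧ p.n ≤ q.n ∧ q.ε ≤ p.ε ∧ (∀ i ∈ p.F, ∀ k, k < p.n → q.f i k = p.f i k) ∧
    ∀ k, p.n ≤ k → k < q.n → ∃ ξ : X →L[ℝ] ℝ, ‖ξ‖ ≤ 3 * K ∧
      (∀ i ∈ p.F, |ξ (u i) - q.f i k| ≤ p.ε) ∧ ∀ i ∈ p.F, i ∈ J → |ξ (u i) - τ i k| ≤ p.ε :=
  Iff.rfl

open Classical in
/-- the strong inequality at all `k ≥ n` -/
def SV (u : ι → X) (J : Set ι) (τ : ι → ℕ → ℝ) (K : ℝ) (F : Finset ι) (n : ℕ) (δ : ℝ) : Prop :=
  ∀ k, n ≤ k → ∀ c : ι → ℝ, |∑ i ∈ F with i ∈ J, c i * τ i k| ≤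
    K * ‖∑ i ∈ F with i ∈ J, c i • u i‖ + δ * ∑ i ∈ F with i ∈ J, |c i|

/-- the standing hypothesis: `τ i` represents `t (u i)` for `i ∈ J`, with `‖t‖ ≤ K` -/
def Hyp (u : ι → X) (J : Set ι) (τ : ι → ℕ → ℝ) (K : ℝ) : Prop :=
  0 ≤ K ∧ ∀ F : Finset ι, (∀ i ∈ F, i ∈ J) → ∀ δ : ℝ, 0 < δ → ∀ᶠ k in atTop, ∀ c : ι → ℝ,
    |∑ i ∈ F, c i * τ i k| ≤ K * ‖∑ i ∈ F, c i • u i‖ + δ * ∑ i ∈ F, |c i|

theorem Hyp.exists_SV (H : Hyp u J τ K) (F : Finset ι) {δ : ℝ} (hδ : 0 < δ) :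
    ∃ n, SV u J τ K F n δ := by
  classical
  have := H.2 (F.filter (· ∈ J)) (fun i hi => (Finset.mem_filter.1 hi).2) δ hδ
  obtain ⟨n, hn⟩ := eventually_atTop.1 this
  exact ⟨n, fun k hk c => by convert hn k hk c⟩

theorem SV.mono {F : Finset ι} {n m : ℕ} {δ : ℝ} (h : SV u J τ K F n δ) (hm : n ≤ m) :
    SV u J τ K F m δ := fun k hk => h k (hm.trans hk)

theorem SV.valid (H : Hyp u J τ K) {F : Finset ι} {n : ℕ} {δ : ℝ} (h : SV u J τ K F n δ)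
    (hδ : 0 ≤ δ) {ε : ℝ} (hε : δ ≤ ε) : ∀ k, n ≤ k →
      ∃ ξ : X →L[ℝ] ℝ, ‖ξ‖ ≤ 3 * K ∧ ∀ i ∈ F, i ∈ J → |ξ (u i) - τ i k| ≤ ε := by
  classical
  intro k hk
  obtain ⟨ξ, h1, h2⟩ := hb (F.filter (· ∈ J)) u (fun i => τ i k) K δ H.1 hδ
    (fun c => by convert h k hk c)
  refine ⟨ξ, by linarith [H.1], fun i hi hJ => (h2 i (Finset.mem_filter.2 ⟨hi, hJ⟩)).trans hε⟩

/-- every condition has extensions with larger index set, larger length, smaller precision,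
and strongly valid -/
theorem Cond.extend (H : Hyp u J τ K) (p : Cond u J τ K) (F' : Finset ι) (hF : p.F ⊆ F') (N : ℕ)
    (ε' : ℚ) (hε0 : 0 < ε') (hε : ε' ≤ p.ε) {δ : ℝ} (hδ : 0 < δ) :
    ∃ q : Cond u J τ K, q ≤ p ∧ q.F = F' ∧ N ≤ q.n ∧ q.ε = ε' ∧ SV u J τ K F' q.n δ := by
  classical
  have hε0' : (0 : ℝ) < ε' := by exact_mod_cast hε0
  obtain ⟨n1, h1⟩ := H.exists_SV F' hδ
  obtain ⟨n2, h2⟩ := H.exists_SV F' hε0'
  let m := max (max p.n N) (max n1 n2)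
  have hm1 : p.n ≤ m := (le_max_left _ _).trans (le_max_left _ _)
  have hm2 : N ≤ m := (le_max_right _ _).trans (le_max_left _ _)
  have hm3 : n1 ≤ m := (le_max_left _ _).trans (le_max_right _ _)
  have hm4 : n2 ≤ m := (le_max_right _ _).trans (le_max_right _ _)
  have hp0 : (0 : ℝ) < p.ε := by exact_mod_cast p.hε
  have hval := p.valid
  choose! ξ hξ1 hξ2 using hval
  have hr : ∀ x : ℝ, ∃ r : ℚ, |x - r| ≤ p.ε := by
    intro x
    obtain ⟨r, hr1, hr2⟩ := exists_rat_btwn (show x - p.ε < x by linarith)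
    exact ⟨r, by rw [abs_le]; constructor <;> linarith⟩
  choose r hr using hr
  refine ⟨⟨F', m, fun i k => if k < p.n then p.f i k else r (ξ k (u i)), ε', hε0,
    (h2.mono hm4).valid H hε0'.le le_rfl⟩, ?_, rfl, hm2, rfl, h1.mono hm3⟩
  refine ⟨hF, hm1, hε, ?_, ?_⟩
  · intro i _ k hk
    show (if k < p.n then p.f i k else r (ξ k (u i))) = _
    rw [if_pos hk]
  · intro k hk _
    refine ⟨ξ k, hξ1 k hk, ?_, hξ2 k hk⟩
    intro i _
    show |ξ k (u i) - ((if k < p.n then p.f i k else r (ξ k (u i)) : ℚ) : ℝ)| ≤ p.ε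
    rw [if_neg (not_lt.2 hk)]
    exact hr _

/-- the graph of the values of a condition on `Δ × n` -/
noncomputable def graph (Δ : Finset ι) (n : ℕ) (f : ι → ℕ → ℚ) : Finset (ι × ℕ × ℚ) := by
  classical
  exact (Δ ×ˢ Finset.range n).image fun x => (x.1, x.2, f x.1 x.2)

theorem graph_eq {Δ : Finset ι} {n : ℕ} {f g : ι → ℕ → ℚ} (h : graph Δ n f = graph Δ n g)
    {i : ι} (hi : i ∈ Δ) {k : ℕ} (hk : k < n) : f i k = g i k := by
  classical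
  have h1 : (i, k, f i k) ∈ graph Δ n f := by
    unfold graph
    exact Finset.mem_image.2 ⟨(i, k), Finset.mem_product.2 ⟨hi, Finset.mem_range.2 hk⟩, rfl⟩
  rw [h] at h1
  unfold graph at h1
  obtain ⟨⟨a, b⟩, _, hab⟩ := Finset.mem_image.1 h1
  simp only [Prod.mk.injEq] at hab
  obtain ⟨rfl, rfl, hab⟩ := hab
  exact hab.symm

/-- Reflection data. -/
def Wit (A : Set (Cond u J τ K)) (Δ : Finset ι) (G : Finset (ι × ℕ × ℚ)) (n : ℕ) (δ ε : ℚ)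
    (p p' : Cond u J τ K) : Prop :=
  p ∈ A ∧ p' ≤ p ∧ p'.ε = ε ∧ Δ ⊆ p'.F ∧ p'.n = n ∧ graph Δ n p'.f = G ∧ SV u J τ K p'.F n δ

/-- a countable set of indices reflecting the witnesses -/
theorem exists_reflecting (A : Set (Cond u J τ K)) :
    ∃ T : Set ι, T.Countable ∧ ∀ (Δ : Finset ι) (f : ι → ℕ → ℚ) (n : ℕ) (δ ε : ℚ), ↑Δ ⊆ T →
      (∃ p p', Wit A Δ (graph Δ n f) n δ ε p p') →
        ∃ p p', Wit A Δ (graph Δ n f) n δ ε p p' ∧ (↑p'.F : Set ι) ⊆ T := by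
  classical
  let emb : ∀ T : Set ι, T × ℕ × ℚ → ι × ℕ × ℚ := fun T x => (x.1.1, x.2.1, x.2.2)
  let ch : Finset ι → Finset (ι × ℕ × ℚ) → ℕ → ℚ → ℚ → Finset ι := fun Δ G n δ ε =>
    if h : ∃ x : Cond u J τ K × Cond u J τ K, Wit A Δ G n δ ε x.1 x.2 then h.choose.2.F else ∅
  let nx : Set ι → Set ι := fun T => T ∪ ⋃ x : Finset T × Finset (T × ℕ × ℚ) × ℕ × ℚ × ℚ,
    (↑(ch (x.1.image Subtype.val) (x.2.1.image (emb T)) x.2.2.1 x.2.2.2.1 x.2.2.2.2) : Set ι)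
  have hnx : ∀ T : Set ι, T.Countable → (nx T).Countable := by
    intro T hT
    have : Countable T := hT.to_subtype
    exact hT.union (Set.countable_iUnion fun x => Finset.countable_toSet _)
  let Ts : ℕ → Set ι := fun m => nx^[m] ∅
  have hTs : ∀ m, Ts (m + 1) = nx (Ts m) := fun m => Function.iterate_succ_apply' nx m ∅
  have hTc : ∀ m, (Ts m).Countable := by
    intro m
    induction m with
    | zero => exact Set.countable_empty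
    | succ m ih => rw [hTs]; exact hnx _ ih
  have hmono : Monotone Ts := monotone_nat_of_le_succ fun m => by
    rw [hTs]; exact Set.subset_union_left
  refine ⟨⋃ m, Ts m, Set.countable_iUnion hTc, ?_⟩
  intro Δ f n δ ε hΔ hex
  obtain ⟨m, hm⟩ : ∃ m, ∀ i ∈ Δ, i ∈ Ts m := by
    have h1 : ∀ i ∈ Δ, ∃ m, i ∈ Ts m := fun i hi => Set.mem_iUnion.1 (hΔ hi)
    choose! mi hmi using h1
    exact ⟨Δ.sup mi, fun i hi => hmono (Finset.le_sup hi) (hmi i hi)⟩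
  have hex' : ∃ x : Cond u J τ K × Cond u J τ K, Wit A Δ (graph Δ n f) n δ ε x.1 x.2 := by
    obtain ⟨p, p', h⟩ := hex
    exact ⟨(p, p'), h⟩
  refine ⟨hex'.choose.1, hex'.choose.2, hex'.choose_spec, ?_⟩
  have hch : ch Δ (graph Δ n f) n δ ε = hex'.choose.2.F := dif_pos hex'
  rw [← hch]
  refine subset_trans ?_ (Set.subset_iUnion Ts (m + 1))
  rw [hTs]
  refine subset_trans ?_ Set.subset_union_right
  let Δ' : Finset (Ts m) := Δ.attach.image fun i => ⟨i.1, hm i.1 i.2⟩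
  let G' : Finset (Ts m × ℕ × ℚ) := (Δ.attach ×ˢ Finset.range n).image fun x =>
    (⟨x.1.1, hm x.1.1 x.1.2⟩, x.2, f x.1.1 x.2)
  have e1 : Δ'.image Subtype.val = Δ := by
    ext i
    simp only [Δ', Finset.mem_image, Finset.mem_attach, true_and, Subtype.exists]
    constructor
    · rintro ⟨a, ha, ⟨b, hb, h1⟩, rfl⟩
      have : b = a := congrArg Subtype.val h1
      exact this ▸ hb
    · intro hi
      exact ⟨i, hm i hi, ⟨i, hi, rfl⟩, rfl⟩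
  have e2 : G'.image (emb (Ts m)) = graph Δ n f := by
    unfold graph
    ext y
    constructor
    · intro hy
      obtain ⟨z, hz, rfl⟩ := Finset.mem_image.1 hy
      obtain ⟨⟨⟨i, hi⟩, k⟩, hx, rfl⟩ := Finset.mem_image.1 hz
      exact Finset.mem_image.2 ⟨(i, k), Finset.mem_product.2 ⟨hi, (Finset.mem_product.1 hx).2⟩, rfl⟩
    · intro hy
      obtain ⟨⟨i, k⟩, hx, rfl⟩ := Finset.mem_image.1 hy
      have hi := (Finset.mem_product.1 hx).1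
      exact Finset.mem_image.2 ⟨_, Finset.mem_image.2 ⟨(⟨i, hi⟩, k),
        Finset.mem_product.2 ⟨Finset.mem_attach _ _, (Finset.mem_product.1 hx).2⟩, rfl⟩, rfl⟩
  have := Set.subset_iUnion (fun x : Finset (Ts m) × Finset (Ts m × ℕ × ℚ) × ℕ × ℚ × ℚ =>
    (↑(ch (x.1.image Subtype.val) (x.2.1.image (emb (Ts m))) x.2.2.1 x.2.2.2.1 x.2.2.2.2) :
      Set ι)) (Δ', G', n, δ, ε)
  simp only [e1, e2] at this
  exact this

theorem countable_finsets {α : Type} {T : Set α} (hT : T.Countable) :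
    {F : Finset α | (↑F : Set α) ⊆ T}.Countable := by
  have h := (Set.countable_ofPred_finite_subset hT).preimage_of_injOn
    (f := fun F : Finset α => (↑F : Set α)) Finset.coe_injective.injOn
  refine h.mono ?_
  intro F hF
  exact ⟨F.finite_toSet, hF⟩

theorem countable_inside (A : Set (Cond u J τ K))
    (hA : ∀ p ∈ A, ∀ q ∈ A, p ≠ q → ¬ ∃ r, r ≤ p ∧ r ≤ q) {T : Set ι} (hT : T.Countable) :
    {p | p ∈ A ∧ (↑p.F : Set ι) ⊆ T}.Countable := by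
  classical
  let φ : Cond u J τ K → Finset ι × Finset (ι × ℕ × ℚ) × ℕ × ℚ := fun p =>
    (p.F, graph p.F p.n p.f, p.n, p.ε)
  have hT2 : ((T ×ˢ (Set.univ : Set (ℕ × ℚ))) : Set (ι × ℕ × ℚ)).Countable :=
    hT.prod Set.countable_univ
  have hcount : ({F : Finset ι | (↑F : Set ι) ⊆ T} ×ˢ
      ({G : Finset (ι × ℕ × ℚ) | (↑G : Set (ι × ℕ × ℚ)) ⊆ T ×ˢ Set.univ} ×ˢ
        (Set.univ : Set (ℕ × ℚ)))).Countable :=
    (countable_finsets hT).prod ((countable_finsets hT2).prod Set.countable_univ)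
  refine Set.MapsTo.countable_of_injOn (f := φ) ?_ ?_ hcount
  · intro p hp
    refine ⟨hp.2, ?_, trivial⟩
    intro y hy
    have hy : y ∈ graph p.F p.n p.f := hy
    unfold graph at hy
    obtain ⟨⟨i, k⟩, hx, rfl⟩ := Finset.mem_image.1 hy
    exact ⟨hp.2 (Finset.mem_product.1 hx).1, trivial⟩
  · intro p hp q hq hpq
    by_contra hne
    simp only [φ, Prod.mk.injEq] at hpq
    obtain ⟨h1, h2, h3, h4⟩ := hpq
    refine hA p hp.1 q hq.1 hne ⟨p, le_rfl, ?_⟩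
    refine ⟨h1 ▸ subset_rfl, h3 ▸ le_rfl, h4 ▸ le_rfl, ?_, ?_⟩
    · intro i hi k hk
      rw [h1, h3] at h2
      exact graph_eq h2 hi hk
    · intro k hk1 hk2
      omega

theorem ccc (H : Hyp u J τ K) : CCC (Cond u J τ K) := by
  classical
  intro A hA
  obtain ⟨T, hT, hrefl⟩ := exists_reflecting A
  by_contra hunc
  have hex : ∃ q ∈ A, ¬ (↑q.F : Set ι) ⊆ T := by
    by_contra h
    push Not at h
    refine hunc ((countable_inside A hA hT).mono ?_)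
    intro p hp
    exact ⟨hp, h p hp⟩
  obtain ⟨q, hqA, hqT⟩ := hex
  have hK := H.1
  have hε0 : (0 : ℝ) < q.ε := by exact_mod_cast q.hε
  have hδ₂ : (0 : ℝ) < q.ε / (4 * (K + 1)) := by positivity
  obtain ⟨R, hRT, C, hC, hR⟩ := near_best (q.F.filter (· ∈ J)) u (T ∩ J) hδ₂
  obtain ⟨δ₁, hδ₁0, hδ₁⟩ : ∃ δ₁ : ℚ, 0 < δ₁ ∧ (δ₁ : ℝ) < q.ε / (2 * (1 + 2 * C)) := by
    have : (0 : ℝ) < q.ε / (2 * (1 + 2 * C)) := by positivity
    obtain ⟨r, h1, h2⟩ := exists_rat_btwn this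
    exact ⟨r, by exact_mod_cast h1, h2⟩
  have hδ₁0' : (0 : ℝ) < δ₁ := by exact_mod_cast hδ₁0
  obtain ⟨q', hq'q, hq'F, -, hq'ε, hq'SV⟩ := Cond.extend H q (q.F ∪ R) Finset.subset_union_left 0
    q.ε q.hε le_rfl hδ₁0'
  rw [← hq'F] at hq'SV
  obtain ⟨p, p', ⟨hpA, hp'p, hp'ε, hΔ, hp'n, hgr, hp'SV⟩, hp'T⟩ :=
    hrefl (q'.F.filter (· ∈ T)) q'.f q'.n δ₁ q.ε
      (fun i hi => (Finset.mem_filter.1 hi).2)
      ⟨q, q', hqA, hq'q, hq'ε, Finset.filter_subset _ _, rfl, rfl, hq'SV⟩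
  have hne : p ≠ q := by
    rintro rfl
    exact hqT (subset_trans (Finset.coe_subset.2 hp'p.1) hp'T)
  refine hA p hpA q hqA hne ?_
  have hRJ : ∀ i ∈ R, i ∈ J := fun i hi => (hRT hi).2
  have hRp' : R ⊆ p'.F := fun i hi => hΔ (Finset.mem_filter.2
    ⟨hq'F ▸ Finset.mem_union_right _ hi, (hRT hi).1⟩)
  have hagree : ∀ i ∈ p'.F, i ∈ q'.F → ∀ k, k < q'.n → p'.f i k = q'.f i k := by
    intro i hi hi' k hk
    exact graph_eq hgr (Finset.mem_filter.2 ⟨hi', hp'T hi⟩) hk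
  -- the amalgamated inequality
  have hineq : ∀ k, q'.n ≤ k → ∀ c : ι → ℝ,
      |∑ i ∈ (p'.F ∪ q'.F) with i ∈ J, c i * τ i k| ≤
      3 * K * ‖∑ i ∈ (p'.F ∪ q'.F) with i ∈ J, c i • u i‖ +
        q.ε * ∑ i ∈ (p'.F ∪ q'.F) with i ∈ J, |c i| := by
    intro k hk c
    rw [Finset.filter_union]
    refine amalg (p'.F.filter (· ∈ J)) (q'.F.filter (· ∈ J)) R ?_ ?_ (T ∩ J) ?_ u
      (fun i => τ i k) (δ₁ := δ₁) (δ₂ := q.ε / (4 * (K + 1))) (C := C) hK hδ₁0'.le ?_ ?_ ?_ ?_ ?_ c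
    · exact fun i hi => Finset.mem_filter.2 ⟨hRp' hi, hRJ i hi⟩
    · exact fun i hi => Finset.mem_filter.2 ⟨hq'F ▸ Finset.mem_union_right _ hi, hRJ i hi⟩
    · intro i hi
      obtain ⟨h1, h2⟩ := Finset.mem_filter.1 (Finset.mem_coe.1 hi)
      exact ⟨hp'T h1, h2⟩
    · have h1 : 2 * K * (q.ε / (4 * (K + 1))) ≤ (q.ε : ℝ) / 2 := by
        rw [mul_div_assoc', div_le_div_iff₀ (by positivity) (by norm_num)]
        nlinarith
      have h2 : (δ₁ : ℝ) * (1 + 2 * C) ≤ q.ε / 2 := by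
        rw [lt_div_iff₀ (by positivity)] at hδ₁
        linarith
      linarith
    · have h2 : (δ₁ : ℝ) * (1 + 2 * C) ≤ q.ε / 2 := by
        rw [lt_div_iff₀ (by positivity)] at hδ₁
        linarith
      nlinarith [mul_nonneg hδ₁0'.le hC]
    · intro c
      exact hp'SV k (by omega) c
    · intro c
      exact hq'SV k hk c
    · intro d
      have hsub : (q'.F.filter (· ∈ J)) \ (p'.F.filter (· ∈ J)) ⊆ q.F.filter (· ∈ J) := by
        intro i hi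
        obtain ⟨h1, h2⟩ := Finset.mem_sdiff.1 hi
        obtain ⟨h3, h4⟩ := Finset.mem_filter.1 h1
        rw [hq'F] at h3
        rcases Finset.mem_union.1 h3 with h5 | h5
        · exact Finset.mem_filter.2 ⟨h5, h4⟩
        · exact absurd (Finset.mem_filter.2 ⟨hRp' h5, h4⟩) h2
      obtain ⟨e, he1, he2⟩ := hR fun i =>
        if i ∈ (q'.F.filter (· ∈ J)) \ (p'.F.filter (· ∈ J)) then d i else 0
      have s1 : ∑ i ∈ q.F.filter (· ∈ J), |(if i ∈ (q'.F.filter (· ∈ J)) \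
          (p'.F.filter (· ∈ J)) then d i else 0)| =
          ∑ i ∈ (q'.F.filter (· ∈ J)) \ (p'.F.filter (· ∈ J)), |d i| := by
        rw [← Finset.sum_subset hsub]
        · exact Finset.sum_congr rfl fun i hi => by rw [if_pos hi]
        · intro i _ hi; rw [if_neg hi, abs_zero]
      have s2 : ∑ i ∈ q.F.filter (· ∈ J), (if i ∈ (q'.F.filter (· ∈ J)) \
          (p'.F.filter (· ∈ J)) then d i else 0) • u i =
          ∑ i ∈ (q'.F.filter (· ∈ J)) \ (p'.F.filter (· ∈ J)), d i • u i := by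
        rw [← Finset.sum_subset hsub]
        · exact Finset.sum_congr rfl fun i hi => by rw [if_pos hi]
        · intro i _ hi; rw [if_neg hi, zero_smul]
      rw [s1] at he1
      simp only [s1, s2] at he2
      exact ⟨e, he1, he2⟩
  refine ⟨⟨p'.F ∪ q'.F, q'.n, fun i k => if i ∈ p'.F then p'.f i k else q'.f i k, q.ε, q.hε, ?_⟩,
    le_trans (b := p') ?_ hp'p, le_trans (b := q') ?_ hq'q⟩
  · intro k hk
    obtain ⟨ξ, h1, h2⟩ := hb ((p'.F ∪ q'.F).filter (· ∈ J)) u (fun i => τ i k) (3 * K) q.ε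
      (by positivity) hε0.le (fun c => hineq k hk c)
    exact ⟨ξ, h1, fun i hi hJ => h2 i (Finset.mem_filter.2 ⟨hi, hJ⟩)⟩
  · refine ⟨Finset.subset_union_left, hp'n.le, hp'ε.ge, ?_, ?_⟩
    · intro i hi k _
      exact if_pos hi
    · intro k hk1 hk2
      have hk2 : k < q'.n := hk2
      omega
  · refine ⟨Finset.subset_union_right, le_rfl, hq'ε.ge, ?_, ?_⟩
    · intro i hi k hk
      show (if i ∈ p'.F then p'.f i k else q'.f i k) = q'.f i k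
      split_ifs with h
      · exact hagree i h hi k hk
      · rfl
    · intro k hk1 hk2
      have hk2 : k < q'.n := hk2
      omega


theorem exists_seq {κ : Cardinal.{0}} (hMA : MA κ) (hκ : Cardinal.aleph0 ≤ κ)
    (hι : Cardinal.mk ι ≤ κ) (H : Hyp u J τ K) :
    ∃ f : ι → ℕ → ℝ, ∀ (F : Finset ι) (ε : ℝ), 0 < ε → ∀ᶠ k in atTop,
      ∃ ξ : X →L[ℝ] ℝ, ‖ξ‖ ≤ 3 * K ∧ (∀ i ∈ F, |ξ (u i) - f i k| ≤ ε) ∧
        ∀ i ∈ F, i ∈ J → |ξ (u i) - τ i k| ≤ ε := by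
  classical
  have hK := H.1
  let I : Type := ι ⊕ (ℕ × ℕ)
  let D : I → Set (Cond u J τ K) := Sum.elim (fun i => {p | i ∈ p.F})
    (fun x => {p | x.1 ≤ p.n ∧ p.ε ≤ 1 / ((x.2 : ℚ) + 1)})
  have hI : Cardinal.mk I ≤ κ := by
    rw [Cardinal.mk_sum, Cardinal.lift_id, Cardinal.lift_id]
    exact (add_le_add hι ((Cardinal.mk_le_aleph0).trans hκ)).trans (Cardinal.add_eq_self hκ).le
  have hne : Nonempty (Cond u J τ K) :=
    ⟨⟨∅, 0, fun _ _ => 0, 1, one_pos, fun k _ => ⟨0, by simpa using hK, by simp⟩⟩⟩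
  have hD : ∀ i, ∀ p, ∃ q, q ≤ p ∧ q ∈ D i := by
    rintro (i | ⟨N, m⟩) p
    · obtain ⟨q, h1, h2, -, -, -⟩ := Cond.extend H p (insert i p.F) (Finset.subset_insert _ _) 0
        p.ε p.hε le_rfl one_pos
      refine ⟨q, h1, ?_⟩
      show i ∈ q.F
      rw [h2]; exact Finset.mem_insert_self _ _
    · obtain ⟨q, h1, -, h3, h4, -⟩ := Cond.extend H p p.F subset_rfl N
        (min p.ε (1 / ((m : ℚ) + 1))) (lt_min p.hε (by positivity)) (min_le_left _ _) one_pos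
      exact ⟨q, h1, h3, h4 ▸ min_le_right _ _⟩
  obtain ⟨G, hup, hdir, ⟨g0, hg0⟩, hmeet⟩ := hMA (Cond u J τ K) (ccc H) I D hI hD
  have hGn : ∀ i k, ∃ p ∈ G, i ∈ p.F ∧ k < p.n := by
    intro i k
    obtain ⟨p, hp, hpi⟩ := hmeet (Sum.inl i)
    obtain ⟨q, hq, hqk, -⟩ := hmeet (Sum.inr (k + 1, 0))
    obtain ⟨r, hr, hrp, hrq⟩ := hdir p hp q hq
    exact ⟨r, hr, hrp.1 hpi, lt_of_lt_of_le (Nat.lt_succ_self k) (hqk.trans hrq.2.1)⟩
  choose P hPG hPi hPk using hGn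
  have hcons : ∀ i k, ∀ p ∈ G, i ∈ p.F → k < p.n → p.f i k = (P i k).f i k := by
    intro i k p hp hi hk
    obtain ⟨r, -, hrp, hrq⟩ := hdir p hp _ (hPG i k)
    rw [← hrp.2.2.2.1 i hi k hk, ← hrq.2.2.2.1 i (hPi i k) k (hPk i k)]
  have hfin : ∀ (F : Finset ι) (m : ℕ), ∃ p ∈ G, F ⊆ p.F ∧ p.ε ≤ 1 / ((m : ℚ) + 1) := by
    intro F m
    induction F using Finset.induction_on with
    | empty =>
      obtain ⟨q, hq, -, hqm⟩ := hmeet (Sum.inr (0, m))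
      exact ⟨q, hq, Finset.empty_subset _, hqm⟩
    | insert i F _ ih =>
      obtain ⟨p, hp, hpF, hpm⟩ := ih
      obtain ⟨q, hq, hqi⟩ := hmeet (Sum.inl i)
      obtain ⟨r, hr, hrp, hrq⟩ := hdir p hp q hq
      exact ⟨r, hr, Finset.insert_subset (hrq.1 hqi) (hpF.trans hrp.1), hrp.2.2.1.trans hpm⟩
  refine ⟨fun i k => (P i k).f i k, ?_⟩
  intro F ε hε
  obtain ⟨m, hm⟩ := exists_nat_one_div_lt hε
  obtain ⟨p, hp, hpF, hpm⟩ := hfin F m
  have hpε : (p.ε : ℝ) ≤ ε := by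
    have : ((p.ε : ℚ) : ℝ) ≤ ((1 / ((m : ℚ) + 1) : ℚ) : ℝ) := by exact_mod_cast hpm
    push_cast at this
    linarith
  filter_upwards [eventually_ge_atTop p.n] with k hk
  obtain ⟨q, hq, hqk, -⟩ := hmeet (Sum.inr (k + 1, 0))
  obtain ⟨r, hr, hrp, hrq⟩ := hdir p hp q hq
  have hkr : k < r.n := lt_of_lt_of_le (Nat.lt_succ_self k) (hqk.trans hrq.2.1)
  obtain ⟨ξ, h1, h2, h3⟩ := hrp.2.2.2.2 k hk hkr
  refine ⟨ξ, h1, ?_, fun i hi hJ => (h3 i (hpF hi) hJ).trans hpε⟩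
  intro i hi
  rw [← hcons i k r hr (hrp.1 (hpF hi)) hkr]
  exact (h2 i (hpF hi)).trans hpε

end Poset

end Pool.Agent.H90
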